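import Pool.Agent.Lib.HyA.Xor

/-!
# HyA, row Cln: the ranks on the orbits of an elementary abelian group

PROOF IN WORDS. Let `f` be from `xor_emb` for the group `N`. `cl x y` = the minimum of `f ν` over the `ν ∈ N` with `ν x = y` (`sInf`; `0` if there
is none). Symmetric: `ν x = y ↔ ν y = x` as `ν * ν = 1`. Invariance: `σ` commutes with all `ν`, so `ν x = y ↔ ν (σ x) = σ y`.
On an `N`-orbit (class of `p`): the set is not empty, the minimum is attained (`Nat.sInf_mem`). `f 1 = 0`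
(`f 1 = f 1 ^^^ f 1`), so `cl x x = 0`, and `cl x y = 0 = f 1` gives `ν = 1` by injectivity. `inj`: `cl x y = f ν = f μ = cl x z` gives
`ν = μ`, so `y = z`. `xor`: `cl x y = f ν`, `cl y z = f μ`, `(μ * ν) x = z`, so `cl x z ≤ f (μ * ν) = f μ ^^^ f ν`.
-/

set_option autoImplicit false

namespace Pool.Agent.Lib.HyA

open Finset Pool.Agent.Lib.HyE

theorem cln {ι κ : Type} [Fintype ι] (G N : Subgroup (Equiv.Perm ι)) (hN : ∀ ν ∈ N, ν * ν = 1)
    (hc : ∀ σ ∈ G, ∀ ν ∈ N, σ * ν = ν * σ) (π : ι → κ)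
    (hπ : ∀ a b, π a = π b ↔ ∃ ν ∈ N, ν a = b) :
    ∃ cl : ι → ι → ℕ, (∀ σ ∈ G, ∀ x y, cl (σ x) (σ y) = cl x y) ∧
      ∀ p, Bin (fun a b : {i // π i = p} => cl a b) := by
  classical
  have hN' : ∀ x : N, x * x = 1 := fun x => Subtype.ext (hN x x.2)
  obtain ⟨f, hf, hfm⟩ := xor_emb N hN'
  have hf1 : f 1 = 0 := by
    have h := hfm 1 1
    rw [Nat.xor_self, mul_one] at h
    exact h
  have hinv : ∀ (ν : N) (x y : ι), (ν : Equiv.Perm ι) x = y → (ν : Equiv.Perm ι) y = x := by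
    intro ν x y h
    have h1 : ((ν : Equiv.Perm ι) * (ν : Equiv.Perm ι)) x = x := by
      rw [hN ν ν.2]
      rfl
    rw [← h]
    exact h1
  obtain ⟨cl, hcl⟩ : ∃ cl : ι → ι → ℕ, ∀ x y,
      cl x y = sInf {k | ∃ ν : N, (ν : Equiv.Perm ι) x = y ∧ f ν = k} := ⟨fun x y => _, fun x y => rfl⟩
  have hle : ∀ (ν : N) (x y : ι), (ν : Equiv.Perm ι) x = y → cl x y ≤ f ν := by
    intro ν x y h
    rw [hcl]
    exact Nat.sInf_le ⟨ν, h, rfl⟩
  have hsym : ∀ x y, cl x y = cl y x := by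
    intro x y
    rw [hcl, hcl]
    congr 1
    ext k
    constructor
    · rintro ⟨ν, h, hk⟩
      exact ⟨ν, hinv ν x y h, hk⟩
    · rintro ⟨ν, h, hk⟩
      exact ⟨ν, hinv ν y x h, hk⟩
  have hat : ∀ x y, π x = π y → ∃ ν : N, (ν : Equiv.Perm ι) x = y ∧ f ν = cl x y := by
    intro x y h
    obtain ⟨ν, hν, hxy⟩ := (hπ x y).1 h
    have h1 : {k | ∃ ν : N, (ν : Equiv.Perm ι) x = y ∧ f ν = k}.Nonempty := ⟨_, ⟨ν, hν⟩, hxy, rfl⟩
    have h2 := Nat.sInf_mem h1
    rw [← hcl] at h2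
    exact h2
  refine ⟨cl, ?_, fun p => ⟨?_, ?_, ?_, ?_⟩⟩
  · intro σ hσ x y
    rw [hcl, hcl]
    congr 1
    ext k
    have h1 : ∀ (ν : N) (z : ι), (ν : Equiv.Perm ι) (σ z) = σ ((ν : Equiv.Perm ι) z) := by
      intro ν z
      have h := hc σ hσ ν ν.2
      have h2 := congrArg (fun e : Equiv.Perm ι => e z) h
      exact h2.symm
    constructor
    · rintro ⟨ν, h, hk⟩
      rw [h1] at h
      exact ⟨ν, σ.injective h, hk⟩
    · rintro ⟨ν, h, hk⟩
      refine ⟨ν, ?_, hk⟩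
      rw [h1, h]
  · intro x y
    exact hsym x y
  · intro x y
    constructor
    · intro h
      obtain ⟨ν, h1, h2⟩ := hat x y (x.2.trans y.2.symm)
      have h3 : f ν = f 1 := by
        rw [h2, hf1]
        exact h
      have h4 : ν = 1 := hf h3
      rw [h4] at h1
      exact Subtype.ext h1
    · rintro rfl
      have h := hle 1 (x : ι) x rfl
      rw [hf1] at h
      exact Nat.le_zero.1 h
  · intro x y z h
    obtain ⟨ν, h1, h2⟩ := hat x y (x.2.trans y.2.symm)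
    obtain ⟨μ, h3, h4⟩ := hat x z (x.2.trans z.2.symm)
    have h5 : f ν = f μ := by
      rw [h2, h4]
      exact h
    have h6 : ν = μ := hf h5
    subst h6
    exact Subtype.ext (h1.symm.trans h3)
  · intro x y z
    obtain ⟨ν, h1, h2⟩ := hat x y (x.2.trans y.2.symm)
    obtain ⟨μ, h3, h4⟩ := hat y z (y.2.trans z.2.symm)
    have h5 : ((μ * ν : N) : Equiv.Perm ι) x = z := by
      show (μ : Equiv.Perm ι) ((ν : Equiv.Perm ι) x) = z
      rw [h1, h3]
    have h6 := hle (μ * ν) x z h5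
    rw [hfm, h2, h4, Nat.xor_comm] at h6
    exact h6

end Pool.Agent.Lib.HyA
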