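import Pool.Agent.Lib.HyA.Lx
import Pool.Agent.Lib.HyE.Ind

/-!
# HyA, row Exs: existence of an optimal solution

PROOF IN WORDS. The set `F0` of the `u` with `IsW u`, `deg u = x` is a compact subset of `ι → ι → ℝ` (closed, entries in
`[0, x i]`), and not empty: `solv_ex` in HyE.Ind for the trivial group `⊥` of `Equiv.Perm ι` (solvable,
`fun σ hσ i _ => by simpa using hσ`) gives some `PT C`, and `exi`. Let `K` be larger than all ranks. By induction on
`k` there is a nonempty compact `F_k ⊆ F0` such that for `u ∈ F_k`, `v ∈ F0` there is no `l < k` with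
`wt v l > wt u l` and `wt v l' = wt u l'` for all `l' < l`: `F_(k+1)` is the set of the maximal points of the continuous
function `wt · k` on `F_k` (`IsCompact.exists_isMaxOn`); if `v ∈ F0` has the same `wt · l` as `u` for all
`l < k` then `v ∈ F_k` must be part of the induction hypothesis (`F_k = {v ∈ F0 | wt v l = m l for l < k}` for a
sequence `m`). Let `u ∈ F_K`. If `d` is as in `Opt cl (supp u)` with `LexPos (wt d)` then for small `ε > 0`
`u + ε d ∈ F0` and it is lexicographically better, a contradiction (ranks `≥ K` do not occur).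
-/

set_option autoImplicit false

namespace Pool.Agent.Lib.HyA

open Finset Pool.Agent.Lib.HyE

variable {ι : Type} [Fintype ι]

private theorem exs_lin (cl : ι → ι → ℕ) (u d : ι → ι → ℝ) (ε : ℝ) (k : ℕ) :
    wt cl (fun i j => u i j + ε * d i j) k = wt cl u k + ε * wt cl d k := by
  unfold wt
  rw [Finset.mul_sum, ← Finset.sum_add_distrib]
  refine Finset.sum_congr rfl fun i _ => ?_
  rw [Finset.mul_sum, ← Finset.sum_add_distrib]
  refine Finset.sum_congr rfl fun j _ => ?_
  split_ifs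
  · rfl
  · ring

private theorem exs_cont (cl : ι → ι → ℕ) (k : ℕ) :
    Continuous (fun u : ι → ι → ℝ => wt cl u k) := by
  unfold wt
  refine continuous_finsetSum _ fun i _ => continuous_finsetSum _ fun j _ => ?_
  by_cases h : i ≠ j ∧ cl i j = k
  · simp only [if_pos h]
    exact (continuous_apply j).comp (continuous_apply i)
  · simp only [if_neg h]
    exact continuous_const

private theorem exs_compact (cl : ι → ι → ℕ) (x : ι → ℝ) (m : ℕ → ℝ) (k : ℕ) :
    IsCompact {u : ι → ι → ℝ | (IsW u ∧ ∀ i, deg u i = x i) ∧ ∀ l < k, wt cl u l = m l} := by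
  have hev : ∀ i j : ι, Continuous (fun u : ι → ι → ℝ => u i j) := fun i j =>
    (continuous_apply j).comp (continuous_apply i)
  have hbox : IsCompact (Set.univ.pi fun i : ι => Set.univ.pi fun _ : ι => Set.Icc (0 : ℝ) (x i)) :=
    isCompact_univ_pi fun i => isCompact_univ_pi fun _ => isCompact_Icc
  refine hbox.of_isClosed_subset ?_ ?_
  · have e : {u : ι → ι → ℝ | (IsW u ∧ ∀ i, deg u i = x i) ∧ ∀ l < k, wt cl u l = m l} =
        ((⋂ i, ⋂ j, {u : ι → ι → ℝ | 0 ≤ u i j}) ∩ (⋂ i, ⋂ j, {u : ι → ι → ℝ | u i j = u j i})) ∩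
        ((⋂ i, {u : ι → ι → ℝ | u i i = 0}) ∩ (⋂ i, {u : ι → ι → ℝ | deg u i = x i})) ∩
        (⋂ l, ⋂ (_ : l < k), {u : ι → ι → ℝ | wt cl u l = m l}) := by
      ext u
      simp only [Set.mem_inter_iff, Set.mem_iInter, Set.mem_ofPred_eq]
      constructor
      · rintro ⟨⟨⟨h1, h2, h3⟩, h4⟩, h5⟩
        exact ⟨⟨⟨h1, h2⟩, ⟨h3, h4⟩⟩, h5⟩
      · rintro ⟨⟨⟨h1, h2⟩, ⟨h3, h4⟩⟩, h5⟩
        exact ⟨⟨⟨h1, h2, h3⟩, h4⟩, h5⟩
    rw [e]
    refine IsClosed.inter (IsClosed.inter (IsClosed.inter ?_ ?_) (IsClosed.inter ?_ ?_)) ?_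
    · exact isClosed_iInter fun i => isClosed_iInter fun j => isClosed_le continuous_const (hev i j)
    · exact isClosed_iInter fun i => isClosed_iInter fun j => isClosed_eq (hev i j) (hev j i)
    · exact isClosed_iInter fun i => isClosed_eq (hev i i) continuous_const
    · refine isClosed_iInter fun i => isClosed_eq ?_ continuous_const
      unfold deg
      exact continuous_finsetSum _ fun j _ => hev i j
    · exact isClosed_iInter fun l => isClosed_iInter fun _ =>
        isClosed_eq (exs_cont cl l) continuous_const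
  · rintro u ⟨⟨hu, hd⟩, -⟩
    simp only [Set.mem_pi, Set.mem_univ, forall_true_left, Set.mem_Icc]
    intro i j
    refine ⟨hu.nn i j, ?_⟩
    rw [← hd i]
    exact Finset.single_le_sum (f := fun j => u i j) (fun j _ => hu.nn i j) (Finset.mem_univ j)

private theorem exs_lex (cl : ι → ι → ℕ) (x : ι → ℝ)
    (hne : ∃ u : ι → ι → ℝ, IsW u ∧ ∀ i, deg u i = x i) (k : ℕ) :
    ∃ m : ℕ → ℝ,
      {u : ι → ι → ℝ | (IsW u ∧ ∀ i, deg u i = x i) ∧ ∀ l < k, wt cl u l = m l}.Nonempty ∧
      ∀ l < k, ∀ v : ι → ι → ℝ, IsW v → (∀ i, deg v i = x i) → (∀ l' < l, wt cl v l' = m l') →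
        wt cl v l ≤ m l := by
  induction k with
  | zero =>
    obtain ⟨u, hu, hd⟩ := hne
    exact ⟨fun _ => 0, ⟨u, ⟨hu, hd⟩, fun l hl => absurd hl (Nat.not_lt_zero l)⟩,
      fun l hl => absurd hl (Nat.not_lt_zero l)⟩
  | succ k ih =>
    obtain ⟨m, hn, hm⟩ := ih
    obtain ⟨u, hu, hmax⟩ := (exs_compact cl x m k).exists_isMaxOn hn (exs_cont cl k).continuousOn
    refine ⟨Function.update m k (wt cl u k), ⟨u, hu.1, ?_⟩, ?_⟩
    · intro l hl
      rcases Nat.lt_succ_iff_lt_or_eq.1 hl with h | h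
      · rw [Function.update_of_ne h.ne]
        exact hu.2 l h
      · rw [h, Function.update_self]
    · intro l hl v hv hvd hvl
      rcases Nat.lt_succ_iff_lt_or_eq.1 hl with h | h
      · rw [Function.update_of_ne h.ne]
        refine hm l h v hv hvd fun l' hl' => ?_
        have := hvl l' hl'
        rwa [Function.update_of_ne (hl'.trans h).ne] at this
      · subst h
        rw [Function.update_self]
        refine hmax ⟨⟨hv, hvd⟩, fun l' hl' => ?_⟩
        have := hvl l' hl'
        rwa [Function.update_of_ne hl'.ne] at this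

private theorem exs_eps (u d : ι → ι → ℝ) (hu : ∀ i j, 0 ≤ u i j)
    (hd : ∀ i j, d i j < 0 → 0 < u i j) : ∃ ε : ℝ, 0 < ε ∧ ∀ i j, 0 ≤ u i j + ε * d i j := by
  have h : ∀ᶠ ε : ℝ in nhdsWithin 0 (Set.Ioi 0), ∀ i j, 0 ≤ u i j + ε * d i j := by
    rw [Filter.eventually_all]
    intro i
    rw [Filter.eventually_all]
    intro j
    rcases le_or_gt 0 (d i j) with h | h
    · filter_upwards [self_mem_nhdsWithin] with ε hε
      exact add_nonneg (hu i j) (mul_nonneg (le_of_lt hε) h)
    · have hc : Filter.Tendsto (fun ε : ℝ => u i j + ε * d i j) (nhds 0) (nhds (u i j + 0 * d i j)) := by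
        apply Continuous.tendsto
        fun_prop
      rw [zero_mul, add_zero] at hc
      have h2 := hc.eventually (lt_mem_nhds (hd i j h))
      exact (h2.filter_mono nhdsWithin_le_nhds).mono fun ε hε => le_of_lt hε
  obtain ⟨ε, h1, h2⟩ := (h.and self_mem_nhdsWithin).exists
  exact ⟨ε, h2, h1⟩

theorem opt_exi (cl : ι → ι → ℕ) (x : ι → ℝ) (hx : ∀ i, 0 ≤ x i)
    (hx2 : ∀ i, 2 * x i ≤ ∑ j, x j) :
    ∃ u : ι → ι → ℝ, IsW u ∧ Opt cl (supp u) ∧ ∀ i, deg u i = x i := by
  classical
  have hne : ∃ u : ι → ι → ℝ, IsW u ∧ ∀ i, deg u i = x i := by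
    have hE := solv_ex _ ι (⊥ : Subgroup (Equiv.Perm ι)) inferInstance rfl
      (fun σ hσ i _ => by simpa using hσ)
    obtain ⟨C, hC, -⟩ := hE
    obtain ⟨u, hu, -, hd⟩ := hC.exi x hx hx2
    exact ⟨u, hu, hd⟩
  obtain ⟨K, hK⟩ : ∃ K : ℕ, ∀ i j : ι, cl i j < K := by
    refine ⟨(Finset.univ.sup fun i : ι => Finset.univ.sup fun j : ι => cl i j) + 1, fun i j => ?_⟩
    refine Nat.lt_succ_of_le ?_
    exact (Finset.le_sup (f := fun j : ι => cl i j) (Finset.mem_univ j)).trans
      (Finset.le_sup (f := fun i : ι => Finset.univ.sup fun j : ι => cl i j) (Finset.mem_univ i))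
  obtain ⟨m, ⟨u, ⟨hu, hud⟩, hum⟩, hm⟩ := exs_lex cl x hne K
  refine ⟨u, hu, ?_, hud⟩
  rintro d hs h0 hd hneg ⟨k, hk, hl⟩
  have hkK : k < K := by
    by_contra hcon
    have : wt cl d k = 0 := by
      unfold wt
      refine Finset.sum_eq_zero fun i _ => Finset.sum_eq_zero fun j _ => ?_
      rw [if_neg]
      rintro ⟨-, h⟩
      exact hcon (h ▸ hK i j)
    linarith
  obtain ⟨ε, hε, hpos⟩ := exs_eps u d hu.nn hneg
  have hW : IsW (fun i j => u i j + ε * d i j) :=
    { nn := hpos
      sym := fun i j => by rw [hu.sym i j, hs i j]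
      dg := fun i => by rw [hu.dg i, h0 i, mul_zero, add_zero] }
  have hD : ∀ i, deg (fun i j => u i j + ε * d i j) i = x i := by
    intro i
    have h1 := hud i
    have h2 := hd i
    unfold deg at h1 h2 ⊢
    rw [Finset.sum_add_distrib, ← Finset.mul_sum, h1, h2, mul_zero, add_zero]
  have hle := hm k hkK _ hW hD (fun l' hl' => by
    rw [exs_lin, hl l' hl', mul_zero, add_zero]
    exact hum l' (hl'.trans hkK))
  rw [exs_lin, hum k hkK] at hle
  have := mul_pos hε hk
  linarith

end Pool.Agent.Lib.HyA
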