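import Pool.Agent.Lib.HyA.Lx

/-!
# HyA, row OTr: transport and restriction of optimal sets

PROOF IN WORDS. `opt_trp`: for `d` on `ι'` use `d' i j = d (e i) (e j)`; sums by `Equiv.sum_comp`. `opt_inner`: a change `d` on `β` is
extended by zero; `wt (ocl M τ cl) d' k = 0` for `k < M` (a nonzero entry has rank `≥ M`), and
`wt (ocl M τ cl) d' (M + k) = wt cl d k`; so `LexPos` is inherited.
-/

set_option autoImplicit false

namespace Pool.Agent.Lib.HyA

open Finset Pool.Agent.Lib.HyE

theorem opt_trp {ι ι' : Type} [Fintype ι] [Fintype ι'] (e : ι ≃ ι') (cl : ι → ι → ℕ)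
    (cl' : ι' → ι' → ℕ) (hcl : ∀ i j, cl' (e i) (e j) = cl i j) (S : ι → ι → Prop)
    (h : Opt cl S) : Opt cl' (fun i j => S (e.symm i) (e.symm j)) := by
  classical
  intro d hsym hdg hdeg hneg hlex
  refine h (fun i j => d (e i) (e j)) (fun i j => hsym _ _) (fun i => hdg _) (fun i => ?_)
    (fun i j hij => ?_) ?_
  · have h1 := hdeg (e i)
    unfold deg at h1 ⊢
    rw [← Equiv.sum_comp e] at h1
    exact h1
  · have h1 := hneg _ _ hij
    simpa using h1
  · have hw : wt cl (fun i j => d (e i) (e j)) = wt cl' d := by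
      funext k
      unfold wt
      rw [← Equiv.sum_comp e]
      refine sum_congr rfl fun i _ => ?_
      rw [← Equiv.sum_comp e]
      refine sum_congr rfl fun j _ => ?_
      by_cases hc : i ≠ j ∧ cl i j = k
      · rw [if_pos hc, if_pos]
        rw [hcl]
        exact ⟨fun hh => hc.1 (e.injective hh), hc.2⟩
      · rw [if_neg hc, if_neg]
        rw [hcl]
        exact fun hh => hc ⟨fun h5 => hh.1 (congrArg e h5), hh.2⟩
    rw [hw]
    exact hlex

/-- extension by zero -/
private def oz {β : Type} (d : β → β → ℝ) : Option β → Option β → ℝ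
  | some x, some y => d x y
  | _, _ => 0

private theorem oz_wt {β : Type} [Fintype β] (M : ℕ) (τ : β → ℕ) (cl : β → β → ℕ)
    (d : β → β → ℝ) (k : ℕ) : wt (ocl M τ cl) (oz d) (M + k) = wt cl d k := by
  classical
  unfold wt
  rw [Fintype.sum_option]
  have h1 : ∀ j : Option β, oz d none j = 0 := fun j => by cases j <;> rfl
  refine (congrArg₂ (· + ·) (sum_eq_zero fun j _ => by rw [h1 j, ite_self]) rfl).trans ?_
  rw [zero_add]
  refine sum_congr rfl fun x _ => ?_
  rw [Fintype.sum_option]
  have h3 : oz d (some x) none = 0 := rfl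
  rw [h3, ite_self, zero_add]
  refine sum_congr rfl fun y _ => ?_
  have h4 : ocl M τ cl (some x) (some y) = M + cl x y := rfl
  by_cases hc : x ≠ y ∧ cl x y = k
  · rw [if_pos hc, if_pos]
    · rfl
    · exact ⟨fun hh => hc.1 (Option.some_inj.1 hh), by omega⟩
  · rw [if_neg hc, if_neg]
    exact fun hh => hc ⟨fun h5 => hh.1 (congrArg some h5), by omega⟩

private theorem oz_low {β : Type} [Fintype β] (M : ℕ) (τ : β → ℕ) (cl : β → β → ℕ)
    (d : β → β → ℝ) (k : ℕ) (hk : k < M) : wt (ocl M τ cl) (oz d) k = 0 := by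
  unfold wt
  refine sum_eq_zero fun i _ => sum_eq_zero fun j _ => ?_
  rcases i with _ | x
  · have : oz d none j = 0 := by cases j <;> rfl
    rw [this, ite_self]
  · rcases j with _ | y
    · have : oz d (some x) none = 0 := rfl
      rw [this, ite_self]
    · rw [if_neg]
      rintro ⟨-, h⟩
      have h4 : ocl M τ cl (some x) (some y) = M + cl x y := rfl
      omega

theorem opt_inner {β : Type} [Fintype β] (M : ℕ) (τ : β → ℕ) (cl : β → β → ℕ)
    (S : Option β → Option β → Prop) (h : Opt (ocl M τ cl) S) :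
    Opt cl (fun x y => S (some x) (some y)) := by
  intro d hsym hdg hdeg hneg hlex
  refine h (oz d) ?_ ?_ ?_ ?_ ?_
  · rintro (_ | x) (_ | y)
    · rfl
    · rfl
    · rfl
    · exact hsym x y
  · rintro (_ | x)
    · rfl
    · exact hdg x
  · rintro (_ | x)
    · unfold deg
      exact sum_eq_zero fun j _ => by cases j <;> rfl
    · have h1 := hdeg x
      unfold deg at h1 ⊢
      rw [Fintype.sum_option]
      have h3 : oz d (some x) none = 0 := rfl
      rw [h3, zero_add]
      exact h1
  · rintro (_ | x) (_ | y) hij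
    · exact absurd hij (lt_irrefl _)
    · exact absurd hij (lt_irrefl _)
    · exact absurd hij (lt_irrefl _)
    · exact hneg x y hij
  · obtain ⟨k, hk, hl⟩ := hlex
    refine ⟨M + k, by rw [oz_wt]; exact hk, fun l hlk => ?_⟩
    rcases Nat.lt_or_ge l M with h1 | h1
    · exact oz_low M τ cl d l h1
    · obtain ⟨l', rfl⟩ := Nat.exists_eq_add_of_le h1
      rw [oz_wt]
      exact hl l' (by omega)

end Pool.Agent.Lib.HyA
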