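import Pool.Agent.Lib.HyA.Defs

/-!
# HyA, row Dc: weights with one nonzero degree are not two-colourable

PROOF IN WORDS. If `col` is a colouring of the pairs with `w ≠ 0` then `∑ x with col x, deg w x = ∑ x with ¬ col x, deg w x` (each
nonzero `w x y` has ends of different colours and is counted once on both sides: both are
`∑ x, ∑ y, if col x ∧ ¬ col y then w x y else 0`, by symmetry). But one side is `deg w b ≠ 0` and the other `0`.
-/

set_option autoImplicit false

namespace Pool.Agent.Lib.HyA

open Finset Pool.Agent.Lib.HyE

theorem dc {β : Type} [Fintype β] (w : β → β → ℝ) (hw : ∀ x y, w x y = w y x) (b : β)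
    (h0 : ∀ x, x ≠ b → deg w x = 0) (hb : deg w b ≠ 0) : ¬ Col (fun x y => w x y ≠ 0) := by
  classical
  rintro ⟨col, hcol⟩
  have hA : (∑ x, if col x = true then deg w x else 0) =
      ∑ x, ∑ y, if col x = true ∧ col y = false then w x y else 0 := by
    refine Finset.sum_congr rfl fun x _ => ?_
    by_cases hx : col x = true
    · rw [if_pos hx]
      unfold deg
      refine Finset.sum_congr rfl fun y _ => ?_
      by_cases hy : col y = false
      · rw [if_pos ⟨hx, hy⟩]
      · rw [if_neg (fun h => hy h.2)]
        by_contra hw0
        have h1 := hcol x y hw0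
        cases h2 : col y <;> simp_all
    · rw [if_neg hx]
      refine (Finset.sum_eq_zero fun y _ => ?_).symm
      rw [if_neg (fun h => hx h.1)]
  have hB : (∑ x, if col x = false then deg w x else 0) =
      ∑ x, ∑ y, if col x = false ∧ col y = true then w x y else 0 := by
    refine Finset.sum_congr rfl fun x _ => ?_
    by_cases hx : col x = false
    · rw [if_pos hx]
      unfold deg
      refine Finset.sum_congr rfl fun y _ => ?_
      by_cases hy : col y = true
      · rw [if_pos ⟨hx, hy⟩]
      · rw [if_neg (fun h => hy h.2)]
        by_contra hw0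
        have h1 := hcol x y hw0
        cases h2 : col y <;> simp_all
    · rw [if_neg hx]
      refine (Finset.sum_eq_zero fun y _ => ?_).symm
      rw [if_neg (fun h => hx h.1)]
  have hAB : (∑ x, ∑ y, if col x = true ∧ col y = false then w x y else 0) =
      ∑ x, ∑ y, if col x = false ∧ col y = true then w x y else 0 := by
    rw [Finset.sum_comm]
    refine Finset.sum_congr rfl fun x _ => Finset.sum_congr rfl fun y _ => ?_
    rw [hw y x]
    by_cases h : col x = false ∧ col y = true
    · rw [if_pos h, if_pos ⟨h.2, h.1⟩]
    · rw [if_neg h, if_neg (fun h' => h ⟨h'.2, h'.1⟩)]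
  have hA1 : (∑ x, if col x = true then deg w x else 0) =
      if col b = true then deg w b else 0 :=
    Finset.sum_eq_single b (fun x _ hx => by rw [h0 x hx, ite_self])
      (fun h => absurd (Finset.mem_univ b) h)
  have hB1 : (∑ x, if col x = false then deg w x else 0) =
      if col b = false then deg w b else 0 :=
    Finset.sum_eq_single b (fun x _ hx => by rw [h0 x hx, ite_self])
      (fun h => absurd (Finset.mem_univ b) h)
  have h := hA1.symm.trans (hA.trans (hAB.trans (hB.symm.trans hB1)))
  cases hc : col b
  · rw [hc, if_neg (by decide), if_pos rfl] at h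
    exact hb h.symm
  · rw [hc, if_pos rfl, if_neg (by decide)] at h
    exact hb h

end Pool.Agent.Lib.HyA
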