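import Pool.Agent.Lib.HyA.Defs

/-!
# HyA, row Crt: critical graphs

PROOF IN WORDS. Among the symmetric relations `F' ⊆ F` which are not two-colourable take one with the smallest number of
pairs (finite type; classical; e.g. strong induction on the number of the pairs, or
`Set.Finite.exists_minimal` / `exists_minimal_of_wellFoundedLT` on `Finset (β × β)`). Let `F' x y`. Suppose all `z` with
`F' x z` are equal to `y`. `F'' a b = F' a b` unless `a = x` or `b = x`: symmetric, smaller, so it has a colouring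
`col`. Change the colour of `x` to `! col y`: this is a colouring of `F'` (pairs with `x` are `(x, y)`, `(y, x)`;
`y ≠ x` by `hirr`). Contradiction.
-/

set_option autoImplicit false

namespace Pool.Agent.Lib.HyA

open Finset Pool.Agent.Lib.HyE

theorem crit {β : Type} [Fintype β] (F : β → β → Prop) (hF : ∀ x y, F x y → F y x)
    (hirr : ∀ x, ¬ F x x) (hc : ¬ Col F) :
    ∃ F' : β → β → Prop, (∀ x y, F' x y → F x y) ∧ (∀ x y, F' x y → F' y x) ∧ ¬ Col F' ∧
      ∀ x y, F' x y → ∃ z, z ≠ y ∧ F' x z := by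
  classical
  obtain ⟨P, hP⟩ : ∃ P : Set (β → β → Prop), P = {G | (∀ x y, G x y → F x y) ∧
      (∀ x y, G x y → G y x) ∧ ¬ Col G} := ⟨_, rfl⟩
  have hne : P.Nonempty := ⟨F, by rw [hP]; exact ⟨fun x y h => h, hF, hc⟩⟩
  obtain ⟨G, hG⟩ := (Set.toFinite P).exists_minimal hne
  have hGP := hG.1
  rw [hP] at hGP
  obtain ⟨h1, h2, h3⟩ := hGP
  refine ⟨G, h1, h2, h3, fun x y hxy => ?_⟩
  by_contra hcon
  have hall : ∀ z, G x z → z = y := by
    intro z hz
    by_contra hzy
    exact hcon ⟨z, hzy, hz⟩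
  have hyx : y ≠ x := by
    rintro rfl
    exact hirr _ (h1 _ _ hxy)
  obtain ⟨G', hG'⟩ : ∃ G' : β → β → Prop, ∀ a b, G' a b ↔ (G a b ∧ a ≠ x ∧ b ≠ x) :=
    ⟨fun a b => G a b ∧ a ≠ x ∧ b ≠ x, fun a b => Iff.rfl⟩
  have hcol : Col G' := by
    by_contra hn
    have hmem : G' ∈ P := by
      rw [hP]
      refine ⟨fun a b hab => h1 a b ((hG' a b).1 hab).1, fun a b hab => ?_, hn⟩
      obtain ⟨k1, k2, k3⟩ := (hG' a b).1 hab
      exact (hG' b a).2 ⟨h2 a b k1, k3, k2⟩
    have hle : G' ≤ G := fun a b hab => ((hG' a b).1 hab).1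
    have hge : G ≤ G' := hG.2 hmem hle
    exact ((hG' x y).1 (hge x y hxy)).2.1 rfl
  obtain ⟨col, hcol⟩ := hcol
  apply h3
  refine ⟨fun a => if a = x then ! col y else col a, fun a b hab => ?_⟩
  by_cases ha : a = x
  · subst ha
    have hb := hall b hab
    subst hb
    simp [hyx]
  · by_cases hb : b = x
    · subst hb
      have h4 := hall a (h2 _ _ hab)
      subst h4
      simp [ha]
    · simp only [ha, hb, if_false]
      exact hcol a b ((hG' a b).2 ⟨hab, ha, hb⟩)

end Pool.Agent.Lib.HyA
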