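import Pool.Agent.Lib.HyA.Lx

/-!
# HyA, row Ex4: exchanges

PROOF IN WORDS. Let `e a b i j = 1` if `(i, j) = (a, b)` or `(b, a)` and `0` otherwise (classical); `deg (e a b) i` is `1` for
`i = a` or `i = b` (`a ≠ b`), otherwise `0`. `ex4`: `d = e a c + e b d - e a b - e c d`, degree zero, negative only
at `(a, b), (c, d)` and reversed; with `k0 = cl a c` `opt_no`: a pair of rank at most `k0` is not `(a, b)` or
`(c, d)`. `ex6`: `d = e x y + e z p + e z q - e x z - e y z - e p q`, `k0 = cl x y` (`p`, `q` may be equal to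
`x` or `y`; a negative entry of `d` is one of the three subtracted pairs).
-/

set_option autoImplicit false

namespace Pool.Agent.Lib.HyA

open Finset Pool.Agent.Lib.HyE

variable {ι : Type} [Fintype ι]

open Classical in
private noncomputable def e (a b i j : ι) : ℝ :=
  (if i = a ∧ j = b then 1 else 0) + (if i = b ∧ j = a then 1 else 0)

omit [Fintype ι] in
private theorem e_nonneg (a b i j : ι) : 0 ≤ e a b i j := by
  unfold e
  split_ifs <;> norm_num

omit [Fintype ι] in
private theorem e_symm (a b i j : ι) : e a b i j = e a b j i := by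
  unfold e
  rw [add_comm]
  congr 1
  · by_cases h1 : i = b ∧ j = a
    · rw [if_pos h1, if_pos h1.symm]
    · rw [if_neg h1, if_neg (fun h => h1 h.symm)]
  · by_cases h1 : i = a ∧ j = b
    · rw [if_pos h1, if_pos h1.symm]
    · rw [if_neg h1, if_neg (fun h => h1 h.symm)]

omit [Fintype ι] in
private theorem e_diag {a b : ι} (hab : a ≠ b) (i : ι) : e a b i i = 0 := by
  unfold e
  rw [if_neg (fun h => hab (h.1.symm.trans h.2)), if_neg (fun h => hab (h.2.symm.trans h.1)), add_zero]

omit [Fintype ι] in
private theorem e_self (a b : ι) : 1 ≤ e a b a b := by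
  unfold e
  rw [if_pos ⟨rfl, rfl⟩]
  split_ifs <;> norm_num

omit [Fintype ι] in
private theorem e_ne {a b i j : ι} (h : e a b i j ≠ 0) : (i = a ∧ j = b) ∨ (i = b ∧ j = a) := by
  by_contra hc
  rw [not_or] at hc
  apply h
  unfold e
  rw [if_neg hc.1, if_neg hc.2, add_zero]

open Classical in
private theorem e_sum (a b i : ι) :
    ∑ j, e a b i j = (if i = a then 1 else 0) + (if i = b then 1 else 0) := by
  unfold e
  rw [Finset.sum_add_distrib]
  congr 1
  · by_cases h : i = a
    · simp [h]
    · simp [h]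
  · by_cases h : i = b
    · simp [h]
    · simp [h]

omit [Fintype ι] in
private theorem e_S {S : ι → ι → Prop} (hS : ∀ i j, S i j → S j i) {a b i j : ι} (h : S a b)
    (he : 0 < e a b i j) : S i j := by
  rcases e_ne he.ne' with ⟨rfl, rfl⟩ | ⟨rfl, rfl⟩
  · exact h
  · exact hS _ _ h

omit [Fintype ι] in
private theorem e_cl {cl : ι → ι → ℕ} (hcl : ∀ i j, cl i j = cl j i) {a b i j : ι} {k : ℕ}
    (h : k < cl a b) (h2 : cl i j ≤ k) : e a b i j = 0 := by
  by_contra hc
  rcases e_ne hc with ⟨rfl, rfl⟩ | ⟨rfl, rfl⟩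
  · omega
  · rw [hcl] at h2
    omega

theorem ex4 {cl : ι → ι → ℕ} (hcl : ∀ i j, cl i j = cl j i) {S : ι → ι → Prop}
    (hS : ∀ i j, S i j → S j i) (hO : Opt cl S) (a b c d : ι) (hab : a ≠ b) (hac : a ≠ c)
    (had : a ≠ d) (hbc : b ≠ c) (hbd : b ≠ d) (hcd : c ≠ d) (h1 : S a b) (h2 : S c d)
    (h3 : cl a c < cl a b) (h4 : cl a c < cl c d) : False := by
  refine opt_no hO (fun i j => e a c i j + e b d i j - e a b i j - e c d i j) ?_ ?_ ?_ ?_ (cl a c) ?_
    ⟨a, c, hac, le_refl _, ?_⟩
  · intro i j
    show e a c i j + e b d i j - e a b i j - e c d i j = e a c j i + e b d j i - e a b j i - e c d j i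
    rw [e_symm a c, e_symm b d, e_symm a b, e_symm c d]
  · intro i
    show e a c i i + e b d i i - e a b i i - e c d i i = 0
    rw [e_diag hac, e_diag hbd, e_diag hab, e_diag hcd]
    norm_num
  · intro i
    classical
    show ∑ j, (e a c i j + e b d i j - e a b i j - e c d i j) = 0
    rw [Finset.sum_sub_distrib, Finset.sum_sub_distrib, Finset.sum_add_distrib, e_sum, e_sum, e_sum,
      e_sum]
    ring
  · intro i j h
    change e a c i j + e b d i j - e a b i j - e c d i j < 0 at h
    have g1 := e_nonneg a c i j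
    have g2 := e_nonneg b d i j
    by_cases h5 : 0 < e a b i j
    · exact e_S hS h1 h5
    · by_cases h6 : 0 < e c d i j
      · exact e_S hS h2 h6
      · linarith
  · intro i j _ h
    show 0 ≤ e a c i j + e b d i j - e a b i j - e c d i j
    rw [e_cl hcl h3 h, e_cl hcl h4 h]
    have g1 := e_nonneg a c i j
    have g2 := e_nonneg b d i j
    linarith
  · show 0 < e a c a c + e b d a c - e a b a c - e c d a c
    rw [e_cl hcl h3 (le_refl (cl a c)), e_cl hcl h4 (le_refl (cl a c))]
    have g1 := e_self a c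
    have g2 := e_nonneg b d a c
    linarith

theorem ex6 {cl : ι → ι → ℕ} (hcl : ∀ i j, cl i j = cl j i) {S : ι → ι → Prop}
    (hS : ∀ i j, S i j → S j i) (hO : Opt cl S) (x y z p q : ι) (hxy : x ≠ y) (hxz : x ≠ z)
    (hyz : y ≠ z) (hpq : p ≠ q) (hpz : p ≠ z) (hqz : q ≠ z) (h1 : S x z) (h2 : S y z)
    (h3 : S p q) (h4 : cl x y < cl x z) (h5 : cl x y < cl y z) (h6 : cl x y < cl p q) :
    False := by
  refine opt_no hO (fun i j => e x y i j + e z p i j + e z q i j - e x z i j - e y z i j - e p q i j)
    ?_ ?_ ?_ ?_ (cl x y) ?_ ⟨x, y, hxy, le_refl _, ?_⟩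
  · intro i j
    show e x y i j + e z p i j + e z q i j - e x z i j - e y z i j - e p q i j =
      e x y j i + e z p j i + e z q j i - e x z j i - e y z j i - e p q j i
    rw [e_symm x y, e_symm z p, e_symm z q, e_symm x z, e_symm y z, e_symm p q]
  · intro i
    show e x y i i + e z p i i + e z q i i - e x z i i - e y z i i - e p q i i = 0
    rw [e_diag hxy, e_diag hpz.symm, e_diag hqz.symm, e_diag hxz, e_diag hyz, e_diag hpq]
    norm_num
  · intro i
    classical
    show ∑ j, (e x y i j + e z p i j + e z q i j - e x z i j - e y z i j - e p q i j) = 0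
    rw [Finset.sum_sub_distrib, Finset.sum_sub_distrib, Finset.sum_sub_distrib,
      Finset.sum_add_distrib, Finset.sum_add_distrib, e_sum, e_sum, e_sum, e_sum, e_sum, e_sum]
    ring
  · intro i j h
    change e x y i j + e z p i j + e z q i j - e x z i j - e y z i j - e p q i j < 0 at h
    have g1 := e_nonneg x y i j
    have g2 := e_nonneg z p i j
    have g3 := e_nonneg z q i j
    by_cases h7 : 0 < e x z i j
    · exact e_S hS h1 h7
    · by_cases h8 : 0 < e y z i j
      · exact e_S hS h2 h8
      · by_cases h9 : 0 < e p q i j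
        · exact e_S hS h3 h9
        · linarith
  · intro i j _ h
    show 0 ≤ e x y i j + e z p i j + e z q i j - e x z i j - e y z i j - e p q i j
    rw [e_cl hcl h4 h, e_cl hcl h5 h, e_cl hcl h6 h]
    have g1 := e_nonneg x y i j
    have g2 := e_nonneg z p i j
    have g3 := e_nonneg z q i j
    linarith
  · show 0 < e x y x y + e z p x y + e z q x y - e x z x y - e y z x y - e p q x y
    rw [e_cl hcl h4 (le_refl (cl x y)), e_cl hcl h5 (le_refl (cl x y)),
      e_cl hcl h6 (le_refl (cl x y))]
    have g1 := e_self x y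
    have g2 := e_nonneg z p x y
    have g3 := e_nonneg z q x y
    linarith

end Pool.Agent.Lib.HyA
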