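import Pool.Agent.Lib.HyA.Bn
import Pool.Agent.Lib.HyA.Ex4
import Pool.Agent.Lib.HyA.Crt

/-!
# HyA, row Gg: an optimal set has no two disjoint graphs which are not two-colourable

PROOF IN WORDS. Replace `F1, F2` by the graphs of `crit` (still contained in `S`, disjoint, irreflexive). Call `x` touched if
`F1 x y` or `F2 x y` for some `y`. Claim by induction on `i`: different touched `x, y` have `lev x y > i`. (For `i = 0`:
`lev_zero`.) For `i` larger than all levels this is a contradiction, as `F1` has a pair (otherwise it is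
two-colourable) and its two ends are different. Step: assume `lev x y > i - 1` for all different touched `x, y`, and let
`x, x*` be touched with `lev x x* = i`, `x ≠ x*`. A touched `a ≠ x` with `lev x a = i` is `x*`: otherwise
`lev x* a ≥ i` is `≤ i` (`lev_um`), so `= i`, contradiction to `lev_two`. All pairs of `F1, F2` have level `≥ i`. Let `x` be
touched by `F_k`, `x*` by `F_l`. Case A: `F_k x x*` is false and `F_l x* x` is false. `x` has neighbours `a1 ≠ a2` (crit),
`x*` has neighbours `d1 ≠ d2`, all of level `> i` from `x`, resp. `x*` (they are `≥ i` and not `x*`, resp. `x`).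
Choose `a ∈ {a1, a2}` and `d ∈ {d1, d2}` with `a ≠ d`. `ex4` with `(x, a), (x*, d)`: `cl x x* < cl x a, cl x* d`
(`lev_lt`). Case B: `F_k x x*` (so `k = l` by disjointness). `x` has a neighbour `a ≠ x*`, `x*` has a neighbour `a' ≠ x`,
both of level `> i`. If `a ≠ a'`: `ex4` as before. If `a = a'`: let `F_m` be the other graph; it has a pair `p0 q0`, and
by crit `p0` has two neighbours, one of them, `q`, with `lev p0 q ≠ i` (only one touched point has level `i`
from `p0`), so `> i`. `p0, q ≠ a` by disjointness. `ex6` with `(x, a), (x*, a), (p0, q)`.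
-/

set_option autoImplicit false

namespace Pool.Agent.Lib.HyA

open Finset Pool.Agent.Lib.HyE

variable {β : Type} [Fintype β] {cl : β → β → ℕ}

/-- the step of the induction -/
private theorem gg_step (h : Bin cl) {S : β → β → Prop} (hS : ∀ i j, S i j → S j i)
    (hO : Opt cl S) (F : Bool → β → β → Prop) (sF : ∀ b x y, F b x y → F b y x)
    (iF : ∀ b x, ¬ F b x x) (SF : ∀ b x y, F b x y → S x y)
    (dF : ∀ b b' x y w, F b x y → F b' x w → b = b')
    (cF : ∀ b x y, F b x y → ∃ z, z ≠ y ∧ F b x z) (eF : ∀ b, ∃ x y, F b x y) (i : ℕ)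
    (hP : ∀ x y, (∃ b z, F b x z) → (∃ b z, F b y z) → x ≠ y → i ≤ lev cl x y) (x x' : β)
    (hx : ∃ b z, F b x z) (hx' : ∃ b z, F b x' z) (hne : x ≠ x') (hi : lev cl x x' = i) :
    False := by
  -- at most one touched point has level `i` from a given one
  have huniq : ∀ p a b, (∃ c z, F c p z) → (∃ c z, F c a z) → (∃ c z, F c b z) → p ≠ a → a ≠ b →
      lev cl p a = i → lev cl p b = i → False := by
    intro p a b _ ha hb hpa hab h1 h2
    have h3 : i ≤ lev cl a b := hP a b ha hb hab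
    have h4 : lev cl a b ≤ i := by
      have h5 := lev_um h a p b
      rw [lev_sym h a p, h1, h2, max_self] at h5
      exact h5
    exact hpa (lev_two h p a b (h1.trans h2.symm) ((le_antisymm h4 h3).trans h1.symm))
  have hgt : ∀ a, (∃ c z, F c a z) → a ≠ x → a ≠ x' → i < lev cl x a := by
    intro a ha hax hax'
    refine lt_of_le_of_ne (hP x a hx ha (Ne.symm hax)) fun he => ?_
    exact huniq x x' a hx hx' ha hne (Ne.symm hax') hi he.symm
  have hgt' : ∀ a, (∃ c z, F c a z) → a ≠ x → a ≠ x' → i < lev cl x' a := by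
    intro a ha hax hax'
    refine lt_of_le_of_ne (hP x' a hx' ha (Ne.symm hax')) fun he => ?_
    exact huniq x' x a hx' hx ha (Ne.symm hne) (Ne.symm hax) ((lev_sym h x' x).trans hi) he.symm
  have htch : ∀ b p q, F b p q → ∃ c z, F c q z := fun b p q hb => ⟨b, p, sF b p q hb⟩
  have hnb : ∀ b p q, F b p q → p ≠ q := by
    rintro b p q hb rfl
    exact iF b p hb
  obtain ⟨k, y, hky⟩ := hx
  obtain ⟨l, y', hly⟩ := hx'
  -- two neighbours outside the pair, different
  have hfin : ∀ b b' a d, F b x a → F b' x' d → a ≠ x' → d ≠ x → a ≠ d → False := by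
    intro b b' a d h1 h2 h3 h4 h5
    have h6 := hgt a (htch _ _ _ h1) (Ne.symm (hnb _ _ _ h1)) h3
    have h7 := hgt' d (htch _ _ _ h2) h4 (Ne.symm (hnb _ _ _ h2))
    rw [← hi] at h6 h7
    exact ex4 h.sym hS hO x a x' d (hnb _ _ _ h1) hne (Ne.symm h4) h3 h5 (hnb _ _ _ h2)
      (SF _ _ _ h1) (SF _ _ _ h2) (lev_lt _ _ _ _ h6) (lev_lt _ _ _ _ h7)
  by_cases hA : F k x x'
  · obtain ⟨a, ha1, ha2⟩ := cF k x x' hA
    obtain ⟨a', ha1', ha2'⟩ := cF k x' x (sF _ _ _ hA)
    by_cases haa : a = a'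
    · subst haa
      obtain ⟨p, q0, hpq0⟩ := eF (!k)
      obtain ⟨q1, hq1, hpq1⟩ := cF _ _ _ hpq0
      have hex : ∃ q, F (!k) p q ∧ i < lev cl p q := by
        by_cases h1 : lev cl p q0 = i
        · refine ⟨q1, hpq1, lt_of_le_of_ne (hP p q1 ⟨_, _, hpq0⟩ (htch _ _ _ hpq1)
            (hnb _ _ _ hpq1)) fun he => ?_⟩
          exact huniq p q0 q1 ⟨_, _, hpq0⟩ (htch _ _ _ hpq0) (htch _ _ _ hpq1) (hnb _ _ _ hpq0)
            (Ne.symm hq1) h1 he.symm
        · exact ⟨q0, hpq0, lt_of_le_of_ne (hP p q0 ⟨_, _, hpq0⟩ (htch _ _ _ hpq0)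
            (hnb _ _ _ hpq0)) fun he => h1 he.symm⟩
      obtain ⟨q, hpq, hlev⟩ := hex
      have hdis : ∀ r s t, F (!k) r s → F k t r → False := by
        intro r s t h1 h2
        have h3 := dF _ _ r s t h1 (sF _ _ _ h2)
        cases k <;> simp at h3
      have h6 := hgt a (htch _ _ _ ha2) (Ne.symm (hnb _ _ _ ha2)) ha1
      have h7 := hgt' a (htch _ _ _ ha2') ha1' (Ne.symm (hnb _ _ _ ha2'))
      rw [← hi] at h6 h7 hlev
      refine ex6 h.sym hS hO x x' a p q hne (hnb _ _ _ ha2) (hnb _ _ _ ha2') (hnb _ _ _ hpq) ?_ ?_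
        (SF _ _ _ ha2) (SF _ _ _ ha2') (SF _ _ _ hpq) (lev_lt _ _ _ _ h6) (lev_lt _ _ _ _ h7)
        (lev_lt _ _ _ _ hlev)
      · rintro rfl
        exact hdis p q x hpq ha2
      · rintro rfl
        exact hdis q p x (sF _ _ _ hpq) ha2
    · exact hfin k k a a' ha2 ha2' ha1 ha1' haa
  · have hB : ¬ F l x' x := by
      intro h1
      have h2 := dF _ _ x y x' hky (sF _ _ _ h1)
      subst h2
      exact hA (sF _ _ _ h1)
    obtain ⟨a2, ha2, hka2⟩ := cF k x y hky
    have hy1 : y ≠ x' := by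
      rintro rfl
      exact hA hky
    have hy2 : a2 ≠ x' := by
      rintro rfl
      exact hA hka2
    have hy3 : y' ≠ x := by
      rintro rfl
      exact hB hly
    by_cases h1 : y = y'
    · exact hfin k l a2 y' hka2 hly hy2 hy3 fun h2 => ha2 (h2.trans h1.symm)
    · exact hfin k l y y' hky hly hy1 hy3 h1

/-- the theorem for graphs without leaves -/
private theorem gg_core (h : Bin cl) {S : β → β → Prop} (hS : ∀ i j, S i j → S j i)
    (hO : Opt cl S) (F : Bool → β → β → Prop) (sF : ∀ b x y, F b x y → F b y x)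
    (iF : ∀ b x, ¬ F b x x) (SF : ∀ b x y, F b x y → S x y)
    (dF : ∀ b b' x y w, F b x y → F b' x w → b = b')
    (cF : ∀ b x y, F b x y → ∃ z, z ≠ y ∧ F b x z) (eF : ∀ b, ∃ x y, F b x y) : False := by
  have hP : ∀ i : ℕ, ∀ x y, (∃ b z, F b x z) → (∃ b z, F b y z) → x ≠ y → i ≤ lev cl x y := by
    intro i
    induction i with
    | zero => exact fun x y _ _ _ => Nat.zero_le _
    | succ i ih =>
      intro x y hx hy hxy
      refine Nat.succ_le_of_lt (lt_of_le_of_ne (ih x y hx hy hxy) fun he => ?_)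
      exact gg_step h hS hO F sF iF SF dF cF eF i ih x y hx hy hxy he.symm
  obtain ⟨x, y, hxy⟩ := eF true
  have hne : x ≠ y := by
    rintro rfl
    exact iF _ _ hxy
  have h1 := hP (lev cl x y + 1) x y ⟨_, _, hxy⟩ ⟨_, _, sF _ _ _ hxy⟩ hne
  omega

omit [Fintype β] in
private theorem ex_of_not_col {F : β → β → Prop} (hc : ¬ Col F) : ∃ x y, F x y := by
  by_contra hn
  push Not at hn
  exact hc ⟨fun _ => true, fun x y hxy => absurd hxy (hn x y)⟩

theorem gg (h : Bin cl) {S : β → β → Prop} (hS : ∀ i j, S i j → S j i) (hO : Opt cl S)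
    (F1 F2 : β → β → Prop) (h1 : ∀ x y, F1 x y → F1 y x) (h2 : ∀ x y, F2 x y → F2 y x)
    (i1 : ∀ x, ¬ F1 x x) (i2 : ∀ x, ¬ F2 x x)
    (s1 : ∀ x y, F1 x y → S x y) (s2 : ∀ x y, F2 x y → S x y)
    (hd : ∀ x y z w, F1 x y → F2 z w → x ≠ z) (c1 : ¬ Col F1) (c2 : ¬ Col F2) : False := by
  obtain ⟨G1, g1, g2, g3, g4⟩ := crit F1 h1 i1 c1
  obtain ⟨G2, k1, k2, k3, k4⟩ := crit F2 h2 i2 c2
  refine gg_core h hS hO (fun b => Bool.rec G2 G1 b) ?_ ?_ ?_ ?_ ?_ ?_
  · intro b; cases b
    · exact k2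
    · exact g2
  · intro b; cases b
    · exact fun x hx => i2 x (k1 x x hx)
    · exact fun x hx => i1 x (g1 x x hx)
  · intro b; cases b
    · exact fun x y hxy => s2 x y (k1 x y hxy)
    · exact fun x y hxy => s1 x y (g1 x y hxy)
  · intro b b' x y w; cases b <;> cases b'
    · exact fun _ _ => rfl
    · exact fun a b => absurd rfl (hd x w x y (g1 _ _ b) (k1 _ _ a))
    · exact fun a b => absurd rfl (hd x y x w (g1 _ _ a) (k1 _ _ b))
    · exact fun _ _ => rfl
  · intro b; cases b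
    · exact k4
    · exact g4
  · intro b; cases b
    · exact ex_of_not_col k3
    · exact ex_of_not_col g3

end Pool.Agent.Lib.HyA
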