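import Pool.Agent.Lib.HyA.Defs

/-!
# HyA, row Bn: facts on levels

PROOF IN WORDS. `Nat.size` is monotone (`Nat.size_le_size`), `Nat.size n = 0 ↔ n = 0`, `Nat.lt_size_self`, `Nat.size_le`:
`size m ≤ n ↔ m < 2 ^ n`. `lev_um`: `cl x z ≤ cl x y ^^^ cl y z < 2 ^ max (size ..) (size ..)` (`Nat.xor_lt_two_pow`).
`lev_two`: let `x ≠ y`. With `j = size (cl x y) = size (cl x z) > 0` the two numbers are in `[2 ^ (j - 1), 2 ^ j)`, both
have the bit `j - 1`, so `cl y x ^^^ cl x z < 2 ^ (j - 1)` and `lev y z ≤ j - 1`. (`Nat.testBit`, or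
`Nat.xor_lt_two_pow` after subtracting `2 ^ (j - 1)`.) `lev_lt`: contrapositive of monotonicity.
-/

set_option autoImplicit false

namespace Pool.Agent.Lib.HyA

open Finset Pool.Agent.Lib.HyE

variable {β : Type} [Fintype β] {cl : β → β → ℕ}

theorem lev_sym (h : Bin cl) (x y : β) : lev cl x y = lev cl y x := by
  unfold lev
  rw [h.sym]

theorem lev_zero (h : Bin cl) (x y : β) : lev cl x y = 0 ↔ x = y := by
  unfold lev
  rw [Nat.size_eq_zero]
  exact h.zero x y

theorem lev_um (h : Bin cl) (x y z : β) : lev cl x z ≤ max (lev cl x y) (lev cl y z) := by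
  unfold lev
  rw [Nat.size_le]
  refine lt_of_le_of_lt (h.xor x y z) (Nat.xor_lt_two_pow ?_ ?_)
  · exact Nat.size_le.1 (le_max_left _ _)
  · exact Nat.size_le.1 (le_max_right _ _)

theorem lev_two (h : Bin cl) (x y z : β) (h1 : lev cl x y = lev cl x z)
    (h2 : lev cl y z = lev cl x y) : x = y := by
  by_contra hxy
  unfold lev at h1 h2
  have h0 : cl x y ≠ 0 := fun h' => hxy ((h.zero x y).1 h')
  have hj0 : Nat.size (cl x y) ≠ 0 := fun h' => h0 (Nat.size_eq_zero.1 h')
  obtain ⟨j, hj⟩ : ∃ j, Nat.size (cl x y) = j + 1 := ⟨Nat.size (cl x y) - 1, by omega⟩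
  have ha : cl x y < 2 ^ (j + 1) := Nat.size_le.1 hj.le
  have ha' : 2 ^ j ≤ cl x y := by
    by_contra hc
    have := Nat.size_le.2 (not_le.1 hc)
    omega
  have hb : cl x z < 2 ^ (j + 1) := Nat.size_le.1 (by omega)
  have hb' : 2 ^ j ≤ cl x z := by
    by_contra hc
    have := Nat.size_le.2 (not_le.1 hc)
    omega
  have hx : cl y x ^^^ cl x z < 2 ^ j := by
    rw [h.sym y x]
    apply Nat.lt_pow_two_of_testBit
    intro i hi
    rw [Nat.testBit_xor]
    rcases Nat.lt_or_ge j i with hi2 | hi2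
    · have hp : 2 ^ (j + 1) ≤ 2 ^ i := Nat.pow_le_pow_right (by norm_num) hi2
      rw [Nat.testBit_lt_two_pow (lt_of_lt_of_le ha hp), Nat.testBit_lt_two_pow (lt_of_lt_of_le hb hp)]
      rfl
    · have hij : i = j := le_antisymm hi2 hi
      subst hij
      rw [Nat.testBit_of_two_pow_le_and_two_pow_add_one_gt ha' ha,
        Nat.testBit_of_two_pow_le_and_two_pow_add_one_gt hb' hb]
      rfl
  have h3 : Nat.size (cl y z) ≤ j := Nat.size_le.2 (lt_of_le_of_lt (h.xor y x z) hx)
  omega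

theorem lev_lt (x y z w : β) (h : lev cl x y < lev cl z w) : cl x y < cl z w := by
  unfold lev at h
  by_contra hc
  exact absurd (Nat.size_le_size (not_lt.1 hc)) (not_le.2 h)

theorem lev_le (x y z w : β) (h : cl x y ≤ cl z w) : lev cl x y ≤ lev cl z w := by
  exact Nat.size_le_size h

end Pool.Agent.Lib.HyA
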