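import Pool.Agent.Lib.HyA.Ex4
import Pool.Agent.Lib.HyA.Bn

/-!
# HyA, row Oa: extension to one more point: the outer weights

PROOF IN WORDS. `c = none`; `ocl` is symmetric. (Mate) If `w c x ≠ 0` then `opt_wt` at the rank `τ x < M`: the sum is
`2 * ∑ y with τ y = τ x, w c y = 0` (pairs of `β` have rank `≥ M`), so there is `x' ≠ x` with `τ x' = τ x`, and by `hτ` (at most
two such points) `w c x' = - w c x`. (Fact 1) If `S c b`, `S c b'`, `b ≠ b'`, `τ b = τ b'`, `τ x1 < τ b` then there is no
`z ≠ x1` in `β` with `S x1 z`: if `z ≠ b` `ex4` with `(x1, z), (c, b)` [a = x1, b = z, c = none, d = b: the new pair `(x1, c)` has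
rank `τ x1 < M + .., τ b`]; if `z = b` the same with `b'` for `b`. (Fact 2) Let `w c b ≠ 0` and `w c x ≠ 0`. Then
`τ x = τ b`: as `deg w x = 0` there is `z` in `β` with `w x z ≠ 0`, so `S x z`, so by Fact 1 (for `b` and its mate) not
`τ x < τ b`; exchanging the roles of `x` and `b`, not `τ b < τ x`. So `x` is `b` or its mate (`hτ`).
-/

set_option autoImplicit false

namespace Pool.Agent.Lib.HyA

open Finset Pool.Agent.Lib.HyE

private theorem oa_sym {β : Type} {cl : β → β → ℕ} (h : Bin cl) (M : ℕ) (τ : β → ℕ) :
    ∀ i j : Option β, ocl M τ cl i j = ocl M τ cl j i := by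
  intro i j
  cases i <;> cases j <;> simp [ocl, h.sym]

private def oa_g {β : Type} [DecidableEq β] (τ : β → ℕ) (w : Option β → Option β → ℝ) (k : ℕ) :
    Option β → Option β → ℝ
  | none, none => 0
  | none, some y => if τ y = k then w none (some y) else 0
  | some y, none => if τ y = k then w none (some y) else 0
  | some _, some _ => 0

private theorem oa_wt {β : Type} [Fintype β] [DecidableEq β] {cl : β → β → ℕ} (M : ℕ) (τ : β → ℕ)
    (w : Option β → Option β → ℝ) (hw : ∀ i j, w i j = w j i) (k : ℕ) (hk : k < M) :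
    wt (ocl M τ cl) w k = 2 * ∑ y : β, if τ y = k then w none (some y) else 0 := by
  have h1 : wt (ocl M τ cl) w k = ∑ i, ∑ j, oa_g τ w k i j := by
    unfold wt
    refine sum_congr rfl fun i _ => sum_congr rfl fun j _ => ?_
    cases i with
    | none =>
      cases j with
      | none => simp [oa_g]
      | some y => simp [oa_g, ocl]
    | some x =>
      cases j with
      | none => simp [oa_g, ocl, hw (some x) none]
      | some y =>
        rw [if_neg]
        · simp [oa_g]
        · rintro ⟨_, h3⟩
          simp only [ocl] at h3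
          omega
  rw [h1, Fintype.sum_option, Fintype.sum_option]
  have h2 : ∀ x : β, ∑ j : Option β, oa_g τ w k (some x) j = if τ x = k then w none (some x) else 0 := by
    intro x
    rw [Fintype.sum_option]
    simp [oa_g]
  rw [sum_congr rfl fun x _ => h2 x]
  simp only [oa_g, zero_add]
  ring

private theorem oa_fact1 {β : Type} [Fintype β] {cl : β → β → ℕ} (h : Bin cl) (M : ℕ) (τ : β → ℕ)
    (hM : ∀ x, τ x < M) (S : Option β → Option β → Prop) (hS : ∀ i j, S i j → S j i)
    (hO : Opt (ocl M τ cl) S) (b b' x z : β) (hbb : b ≠ b') (hb : S none (some b))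
    (hb' : S none (some b')) (hτb : τ b = τ b') (hx : τ x < τ b) (hz : z ≠ x)
    (hxz : S (some x) (some z)) : False := by
  have key : ∀ d : β, τ d = τ b → z ≠ d → S none (some d) → False := by
    intro d hd hzd hSd
    have hxd : x ≠ d := by
      rintro rfl
      omega
    refine ex4 (oa_sym h M τ) hS hO (some x) (some z) none (some d) (by simpa using hz.symm)
      (by simp) (by simpa using hxd) (by simp) (by simpa using hzd) (by simp) hxz hSd ?_ ?_
    · simp only [ocl]
      have := hM x
      omega
    · simp only [ocl]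
      omega
  by_cases hzb : z = b
  · exact key b' hτb.symm (by rw [hzb]; exact hbb) hb'
  · exact key b rfl hzb hb

theorem oa {β : Type} [Fintype β] {cl : β → β → ℕ} (h : Bin cl) (M : ℕ) (τ : β → ℕ)
    (hM : ∀ x, τ x < M) (hτ : ∀ x y z, τ x = τ y → τ y = τ z → x = y ∨ y = z ∨ x = z)
    (S : Option β → Option β → Prop) (hS : ∀ i j, S i j → S j i) (hO : Opt (ocl M τ cl) S)
    (w : Option β → Option β → ℝ) (hw : ∀ i j, w i j = w j i) (hw0 : ∀ i, w i i = 0)
    (hd : ∀ i, deg w i = 0) (hwS : ∀ i j, w i j ≠ 0 → S i j) (b : β)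
    (hb : w none (some b) ≠ 0) :
    ∃ b', b' ≠ b ∧ w none (some b') = - w none (some b) ∧
      ∀ x, x ≠ b → x ≠ b' → w none (some x) = 0 := by
  classical
  -- the mate
  have mate : ∀ x, w none (some x) ≠ 0 → ∃ x', x' ≠ x ∧ τ x' = τ x ∧
      w none (some x') = - w none (some x) := by
    intro x hx
    have h1 := opt_wt hO w hw hw0 hd hwS (τ x)
    rw [oa_wt M τ w hw (τ x) (hM x), ← sum_filter] at h1
    have h2 : ∑ y ∈ univ.filter (fun y => τ y = τ x), w none (some y) = 0 := by linarith
    have hxm : x ∈ univ.filter (fun y => τ y = τ x) := by simp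
    rw [← add_sum_erase _ _ hxm] at h2
    by_cases hex : ∃ x', x' ≠ x ∧ τ x' = τ x
    · obtain ⟨x', hx', hτx'⟩ := hex
      have h3 : (univ.filter (fun y => τ y = τ x)).erase x = {x'} := by
        ext y
        simp only [mem_erase, mem_filter, mem_univ, true_and, mem_singleton]
        constructor
        · rintro ⟨hy1, hy2⟩
          rcases hτ y x x' hy2 hτx'.symm with h4 | h4 | h4
          · exact absurd h4 hy1
          · exact absurd h4.symm hx'
          · exact h4
        · rintro rfl
          exact ⟨hx', hτx'⟩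
      rw [h3, sum_singleton] at h2
      exact ⟨x', hx', hτx', by linarith⟩
    · exfalso
      push Not at hex
      have h3 : (univ.filter (fun y => τ y = τ x)).erase x = ∅ := by
        ext y
        simp only [mem_erase, mem_filter, mem_univ, true_and, notMem_empty, iff_false]
        rintro ⟨hy1, hy2⟩
        exact hex y hy1 hy2
      rw [h3, sum_empty, add_zero] at h2
      exact hx h2
  have inner : ∀ x, w none (some x) ≠ 0 → ∃ z, z ≠ x ∧ S (some x) (some z) := by
    intro x hx
    by_contra hcon
    push Not at hcon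
    have h1 := hd (some x)
    unfold deg at h1
    rw [Fintype.sum_option] at h1
    have h2 : ∀ z : β, w (some x) (some z) = 0 := by
      intro z
      by_contra h3
      by_cases hz : z = x
      · rw [hz] at h3
        exact h3 (hw0 _)
      · exact hcon z hz (hwS _ _ h3)
    rw [sum_congr rfl fun z _ => h2 z, sum_const_zero, add_zero, hw] at h1
    exact hx h1
  have notlt : ∀ x y, w none (some x) ≠ 0 → w none (some y) ≠ 0 → ¬ τ x < τ y := by
    intro x y hx hy hlt
    obtain ⟨y', hy', hτy', hwy'⟩ := mate y hy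
    obtain ⟨z, hz, hSz⟩ := inner x hx
    refine oa_fact1 h M τ hM S hS hO y y' x z hy'.symm (hwS _ _ hy) (hwS _ _ ?_) hτy'.symm hlt hz hSz
    rw [hwy']
    exact neg_ne_zero.2 hy
  obtain ⟨b', hb', hτb', hwb'⟩ := mate b hb
  refine ⟨b', hb', hwb', ?_⟩
  intro x hxb hxb'
  by_contra hx
  have h1 := notlt x b hx hb
  have h2 := notlt b x hb hx
  rcases hτ x b b' (by omega) hτb'.symm with h3 | h3 | h3
  · exact hxb h3
  · exact hb' h3.symm
  · exact hxb' h3

end Pool.Agent.Lib.HyA
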