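import Pool.Agent.Lib.HyA.Tt
import Pool.Agent.Lib.HyA.Gg
import Pool.Agent.Lib.HyA.Dc
import Pool.Agent.Lib.HyA.Oa
import Pool.Agent.Lib.HyA.OTr

/-!
# HyA, row Oo: uniqueness for the extension to one more point

PROOF IN WORDS. Let `S, w` be as in `Unq`, `c = none`, `S' x y = S (some x) (some y)`, `Opt cl S'` (`opt_inner`). (II) If all
`w c (some b) = 0` then `w` restricted to `β` has degree zero and `bin_unq` for `S'` gives `w = 0`. (I) Suppose
`w c b ≠ 0`, and let `b'` be from `oa`. There is `z` in `β` with `w b z ≠ 0` (`deg w b = 0`). Take `x, x'` in `β` with `w x x' ≠ 0`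
and `cl x x'` maximal, `j = lev x x'`. All `w a a' ≠ 0` (`a, a'` in `β`) have `lev a a' ≤ j` (`lev_le`), so they are in the same
coset (`lev_um`). Let `C = {z | lev x z ≤ j}`. By `kk` for `S'`: if `a, a' ∈ C`, `w a a' ≠ 0` and `cl a a' = cl x x'` then
`(a, a') = (x, x')` or `(x', x)`. (1) `b, b' ∉ C`: `w` restricted to the pairs in `C` (over `β`) has degree zero,
`opt_wt` for `S'` at the rank `cl x x'` gives `2 w x x' = 0`. (2) `b, b' ∈ C`: restrict `w` to the pairs in `C ∪ {c}`:
degree zero on `Option β` (for `c`: `w c b + w c b' = 0`), `opt_wt` for `S` at the rank `M + cl x x'` (pairs with `c` have rank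
`< M`): `2 w x x' = 0`. (3) One of them in `C`, the other not: then `lev b b' > j`. Let `C1 = {z | lev b z ≤ j}`,
`C2 = {z | lev b' z ≤ j}`, disjoint (`lev_um`). `w1` = `w` restricted to the pairs in `C1` has degree `- w c b ≠ 0` at `b` and
zero elsewhere; `dc`: `fun x y => w1 x y ≠ 0` is not two-colourable; the same for `w2`, `C2`, `b'`; `gg` for `S'` gives a
contradiction.
-/

set_option autoImplicit false

namespace Pool.Agent.Lib.HyA

open Finset Pool.Agent.Lib.HyE

open Classical in
private noncomputable def rs {ι : Type} (w : ι → ι → ℝ) (P : ι → Prop) (i j : ι) : ℝ :=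
  if P i ∧ P j then w i j else 0

private theorem rs_in {ι : Type} {w : ι → ι → ℝ} {P : ι → Prop} {i j : ι} (hi : P i) (hj : P j) :
    rs w P i j = w i j := if_pos ⟨hi, hj⟩

private theorem rs_ne {ι : Type} {w : ι → ι → ℝ} {P : ι → Prop} {i j : ι} (h : rs w P i j ≠ 0) :
    P i ∧ P j ∧ w i j ≠ 0 := by
  by_cases hc : P i ∧ P j
  · refine ⟨hc.1, hc.2, ?_⟩
    rw [rs_in hc.1 hc.2] at h
    exact h
  · exact absurd (if_neg hc) h

private theorem rs_sym {ι : Type} {w : ι → ι → ℝ} (hw : ∀ i j, w i j = w j i) (P : ι → Prop)
    (i j : ι) : rs w P i j = rs w P j i := by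
  by_cases hc : P i ∧ P j
  · rw [rs_in hc.1 hc.2, rs_in hc.2 hc.1]
    exact hw i j
  · have h1 : rs w P i j = 0 := if_neg hc
    have h2 : rs w P j i = 0 := if_neg (fun h => hc ⟨h.2, h.1⟩)
    rw [h1, h2]

private theorem rs_deg_in {ι : Type} [Fintype ι] {w : ι → ι → ℝ} {P : ι → Prop} {i : ι}
    (hi : P i) (h : ∀ j, w i j ≠ 0 → P j) : deg (rs w P) i = deg w i := by
  unfold deg
  refine Finset.sum_congr rfl ?_
  intro j _
  by_cases hj : P j
  · exact rs_in hi hj
  · have h1 : rs w P i j = 0 := if_neg (fun h' => hj h'.2)
    rw [h1]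
    by_contra hne
    exact hj (h j (fun h0 => hne h0.symm))

private theorem rs_deg_out {ι : Type} [Fintype ι] {w : ι → ι → ℝ} {P : ι → Prop} {i : ι}
    (h : P i → ∀ j, P j → w i j = 0) : deg (rs w P) i = 0 := by
  unfold deg
  refine Finset.sum_eq_zero ?_
  intro j _
  by_cases hj : P i ∧ P j
  · rw [rs_in hj.1 hj.2]
    exact h hj.1 j hj.2
  · exact if_neg hj

open Classical in
private theorem wt_sum {ι : Type} [Fintype ι] (cl : ι → ι → ℕ) (v : ι → ι → ℝ) (k : ℕ) :
    ∃ g : ι → ι → ℝ, wt cl v k = ∑ i, ∑ j, g i j ∧
      (∀ i j, i ≠ j → cl i j = k → g i j = v i j) ∧ ∀ i j, ¬ (i ≠ j ∧ cl i j = k) → g i j = 0 :=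
  ⟨fun i j => if i ≠ j ∧ cl i j = k then v i j else 0, rfl, fun _ _ h1 h2 => if_pos ⟨h1, h2⟩,
    fun _ _ h => if_neg h⟩

private theorem wt_ne {ι : Type} [Fintype ι] (cl : ι → ι → ℕ) (v : ι → ι → ℝ) (k : ℕ) (ω : ℝ)
    (hω : ω ≠ 0) (h1 : ∀ i j, i ≠ j → cl i j = k → v i j = 0 ∨ v i j = ω) (i0 j0 : ι)
    (h0 : i0 ≠ j0) (hk : cl i0 j0 = k) (hv : v i0 j0 = ω) : wt cl v k ≠ 0 := by
  obtain ⟨g, hg1, hg2, hg3⟩ := wt_sum cl v k
  intro hwt
  have h3 : ∑ i, ∑ j, ω * g i j = 0 := by
    have h4 : ∑ i, ∑ j, ω * g i j = ω * ∑ i, ∑ j, g i j := by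
      rw [Finset.mul_sum]
      exact Finset.sum_congr rfl (fun i _ => by rw [Finset.mul_sum])
    rw [h4, ← hg1, hwt, mul_zero]
  have hnn : ∀ i j, 0 ≤ ω * g i j := by
    intro i j
    by_cases hc : i ≠ j ∧ cl i j = k
    · rw [hg2 i j hc.1 hc.2]
      rcases h1 i j hc.1 hc.2 with h | h
      · rw [h, mul_zero]
      · rw [h]
        exact mul_self_nonneg _
    · rw [hg3 i j hc, mul_zero]
  have h5 := (Finset.sum_eq_zero_iff_of_nonneg
    (fun i _ => Finset.sum_nonneg (fun j _ => hnn i j))).mp h3 i0 (mem_univ _)
  have h6 := (Finset.sum_eq_zero_iff_of_nonneg (fun j _ => hnn i0 j)).mp h5 j0 (mem_univ _)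
  rw [hg2 i0 j0 h0 hk, hv] at h6
  exact hω (mul_self_eq_zero.mp h6)

theorem oo {β : Type} [Fintype β] {cl : β → β → ℕ} (h : Bin cl) (M : ℕ) (τ : β → ℕ)
    (hM : ∀ x, τ x < M) (hτ : ∀ x y z, τ x = τ y → τ y = τ z → x = y ∨ y = z ∨ x = z) :
    Unq (ocl M τ cl) := by
  classical
  intro S hS hO w hw hw0 hd hwS
  have hO' : Opt cl (fun x y => S (some x) (some y)) := opt_inner M τ cl S hO
  have hS' : ∀ x y, S (some x) (some y) → S (some y) (some x) := fun x y h1 => hS _ _ h1
  obtain ⟨w', hw'⟩ : ∃ w' : β → β → ℝ, w' = fun x y => w (some x) (some y) := ⟨_, rfl⟩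
  have hww : ∀ x y, w' x y = w (some x) (some y) := by
    intro x y
    rw [hw']
  have hw's : ∀ x y, w' x y = w' y x := by
    intro x y
    rw [hww, hww]
    exact hw _ _
  have hw'0 : ∀ x, w' x x = 0 := by
    intro x
    rw [hww]
    exact hw0 _
  have hdeg : ∀ x, deg w' x = - w none (some x) := by
    intro x
    have h1 := hd (some x)
    unfold deg at h1
    rw [Fintype.sum_option] at h1
    have h2 : deg w' x = ∑ y, w (some x) (some y) := by
      unfold deg
      exact Finset.sum_congr rfl (fun y _ => hww x y)
    rw [h2, hw none (some x)]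
    linarith
  have hw'S : ∀ x y, w' x y ≠ 0 → S (some x) (some y) := by
    intro x y h1
    rw [hww] at h1
    exact hwS _ _ h1
  by_cases hall : ∀ b, w none (some b) = 0
  · have h2 := bin_unq h (fun x y => S (some x) (some y)) hS' hO' w' hw's hw'0
      (fun x => by rw [hdeg, hall, neg_zero]) hw'S
    intro i j
    cases i with
    | none =>
      cases j with
      | none => exact hw0 none
      | some b => exact hall b
    | some a =>
      cases j with
      | none =>
        rw [hw]
        exact hall a
      | some b =>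
        rw [← hww]
        exact h2 a b
  · exfalso
    push Not at hall
    obtain ⟨b, hb⟩ := hall
    obtain ⟨b', hbb', hb', hoth⟩ := oa h M τ hM hτ S hS hO w hw hw0 hd hwS b hb
    have hdb : deg w' b ≠ 0 := by
      rw [hdeg]
      exact neg_ne_zero.mpr hb
    have hdb' : deg w' b' ≠ 0 := by
      rw [hdeg, hb', neg_neg]
      exact hb
    have hdo : ∀ x, x ≠ b → x ≠ b' → deg w' x = 0 := by
      intro x h1 h2
      rw [hdeg, hoth x h1 h2, neg_zero]
    have hsumb : ∑ y, w' b y ≠ 0 := hdb
    obtain ⟨z, -, hz⟩ := Finset.exists_ne_zero_of_sum_ne_zero hsumb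
    obtain ⟨⟨x, x'⟩, hxm, hmax⟩ := Finset.exists_max_image
      (univ.filter (fun p : β × β => w' p.1 p.2 ≠ 0)) (fun p => cl p.1 p.2)
      ⟨(b, z), by rw [mem_filter]; exact ⟨mem_univ _, hz⟩⟩
    have hxx : w' x x' ≠ 0 := (mem_filter.mp hxm).2
    have hmax' : ∀ a a', w' a a' ≠ 0 → cl a a' ≤ cl x x' := fun a a' h1 =>
      hmax (a, a') (by rw [mem_filter]; exact ⟨mem_univ _, h1⟩)
    have hne : x ≠ x' := by
      intro h1
      rw [← h1] at hxx
      exact hxx (hw'0 x)
    have hlev : ∀ a a', w' a a' ≠ 0 → lev cl a a' ≤ lev cl x x' := fun a a' h1 =>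
      lev_le a a' x x' (hmax' a a' h1)
    have hco : ∀ c a a', w' a a' ≠ 0 → lev cl c a ≤ lev cl x x' →
        lev cl c a' ≤ lev cl x x' := by
      intro c a a' h1 h2
      exact (lev_um h c a a').trans (max_le h2 (hlev a a' h1))
    by_cases hcase : (lev cl x b ≤ lev cl x x' ↔ lev cl x b' ≤ lev cl x x')
    · obtain ⟨P, hP⟩ : ∃ P : Option β → Prop,
          P = fun i => ∀ a, i = some a → lev cl x a ≤ lev cl x x' := ⟨_, rfl⟩
      have hPn : P none := by
        rw [hP]
        intro a ha
        exact absurd ha (by simp)
      have hPs : ∀ a, P (some a) ↔ lev cl x a ≤ lev cl x x' := by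
        intro a
        rw [hP]
        constructor
        · intro h1
          exact h1 a rfl
        · intro h1 a' h2
          rw [← Option.some.inj h2]
          exact h1
      have hdv : ∀ i, deg (rs w P) i = 0 := by
        intro i
        cases i with
        | none =>
          by_cases hCb : lev cl x b ≤ lev cl x x'
          · rw [rs_deg_in hPn, hd]
            intro j hj
            cases j with
            | none => exact hPn
            | some a =>
              rw [hPs]
              by_cases h1 : a = b
              · rw [h1]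
                exact hCb
              · by_cases h2 : a = b'
                · rw [h2]
                  exact hcase.mp hCb
                · exact absurd (hoth a h1 h2) hj
          · apply rs_deg_out
            intro _ j hj
            cases j with
            | none => exact hw0 none
            | some a =>
              rw [hPs] at hj
              apply hoth a
              · intro h1
                rw [h1] at hj
                exact hCb hj
              · intro h1
                rw [h1] at hj
                exact hCb (hcase.mpr hj)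
        | some a =>
          by_cases hCa : lev cl x a ≤ lev cl x x'
          · rw [rs_deg_in ((hPs a).mpr hCa), hd]
            intro j hj
            cases j with
            | none => exact hPn
            | some a' =>
              rw [hPs]
              exact hco x a a' (by rw [hww]; exact hj) hCa
          · apply rs_deg_out
            intro h1
            exact absurd ((hPs a).mp h1) hCa
      have hwt := opt_wt hO (rs w P) (rs_sym hw P)
        (fun i => by
          by_contra h1
          exact (rs_ne h1).2.2 (hw0 i)) hdv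
        (fun i j hij => hwS i j (rs_ne hij).2.2) (M + cl x x')
      refine wt_ne (ocl M τ cl) (rs w P) (M + cl x x') (w' x x') hxx ?_ (some x) (some x') ?_ rfl
        ?_ hwt
      · intro i j hij hk
        by_cases h0 : rs w P i j = 0
        · exact Or.inl h0
        · right
          obtain ⟨h1, h2, h3⟩ := rs_ne h0
          cases i with
          | none =>
            cases j with
            | none => exact absurd rfl hij
            | some a =>
              have h4 : τ a = M + cl x x' := hk
              have h5 := hM a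
              omega
          | some a =>
            cases j with
            | none =>
              have h4 : τ a = M + cl x x' := hk
              have h5 := hM a
              omega
            | some a' =>
              have h4 : M + cl a a' = M + cl x x' := hk
              have h5 : cl x x' = cl a a' := by omega
              have h7 : a ≠ a' := fun h8 => hij (by rw [h8])
              have h6 := kk h (S := fun x y => S (some x) (some y)) hS' hO' x x' a a' hne h7
                (hw'S x x' hxx) (hwS _ _ h3) h5 ((hPs a).mp h1)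
              rw [rs_in h1 h2]
              rcases h6 with ⟨h8, h9⟩ | ⟨h8, h9⟩
              · rw [h8, h9, hww]
              · rw [h8, h9, hww]
                exact hw _ _
      · intro h1
        exact hne (Option.some.inj h1)
      · rw [rs_in ((hPs x).mpr (by rw [(lev_zero h x x).mpr rfl]; exact Nat.zero_le _))
          ((hPs x').mpr le_rfl), hww]
    · have hbb : ¬ lev cl b b' ≤ lev cl x x' := by
        intro h1
        apply hcase
        constructor
        · intro h2
          exact (lev_um h x b b').trans (max_le h2 h1)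
        · intro h2
          exact (lev_um h x b' b).trans (max_le h2 (by rw [lev_sym h]; exact h1))
      have hr : ∀ c c', (∀ a, a ≠ c → a ≠ c' → deg w' a = 0) → deg w' c ≠ 0 →
          ¬ lev cl c c' ≤ lev cl x x' →
          ¬ Col (fun a a' => rs w' (fun z => lev cl c z ≤ lev cl x x') a a' ≠ 0) := by
        intro c c' h1 h2 h3
        refine dc (rs w' (fun z => lev cl c z ≤ lev cl x x')) (rs_sym hw's _) c ?_ ?_
        · intro a hac
          by_cases hPa : lev cl c a ≤ lev cl x x'
          · rw [rs_deg_in (P := fun z => lev cl c z ≤ lev cl x x') hPa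
              (fun j hj => hco c a j hj hPa)]
            apply h1 a hac
            intro h4
            rw [h4] at hPa
            exact h3 hPa
          · exact rs_deg_out (fun h4 => absurd h4 hPa)
        · have hcc : lev cl c c ≤ lev cl x x' := by
            rw [(lev_zero h c c).mpr rfl]
            exact Nat.zero_le _
          rw [rs_deg_in (P := fun z => lev cl c z ≤ lev cl x x') hcc
            (fun j hj => hco c c j hj hcc)]
          exact h2
      have hirr : ∀ (P : β → Prop) a, ¬ rs w' P a a ≠ 0 := by
        intro P a h1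
        exact (rs_ne h1).2.2 (hw'0 a)
      refine gg h (S := fun x y => S (some x) (some y)) hS' hO'
        (fun a a' => rs w' (fun z => lev cl b z ≤ lev cl x x') a a' ≠ 0)
        (fun a a' => rs w' (fun z => lev cl b' z ≤ lev cl x x') a a' ≠ 0)
        ?_ ?_ (hirr _) (hirr _) ?_ ?_ ?_ (hr b b' hdo hdb hbb)
        (hr b' b (fun a h1 h2 => hdo a h2 h1) hdb' (by rw [lev_sym h]; exact hbb))
      · intro a a' h1
        show rs w' _ a' a ≠ 0
        rw [rs_sym hw's]
        exact h1
      · intro a a' h1
        show rs w' _ a' a ≠ 0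
        rw [rs_sym hw's]
        exact h1
      · intro a a' h1
        exact hw'S a a' (rs_ne h1).2.2
      · intro a a' h1
        exact hw'S a a' (rs_ne h1).2.2
      · intro a a' c c' h1 h2 h3
        have h4 : lev cl b a ≤ lev cl x x' := (rs_ne h1).1
        have h5 : lev cl b' c ≤ lev cl x x' := (rs_ne h2).1
        rw [← h3] at h5
        exact hbb ((lev_um h b a b').trans (max_le h4 (by rw [lev_sym h]; exact h5)))

end Pool.Agent.Lib.HyA
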