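import Pool.Agent.Lib.HyA.Defs
import Pool.Agent.Lib.HyE.UC1
import Pool.Agent.Lib.HyE.Cls

/-!
# HyA, row RB: uniqueness, type B, same centre, with extensions

PROOF IN WORDS. `uniq_of_out`: outer pairs without `c` have weight zero (`bf_zero`). For `z` in a class `p ≠ π c`: `hE.uniq` for `c`, `p`:
the degree condition is `deg = inn + out` (`deg_split`) with `out u z = u c z` (`bf_out`); the sums are
`cs (out u) p` (`bf_out` termwise), equal by `uniq_cls`. So `u c z = v c z`; symmetry for `(z, c)`.
-/

set_option autoImplicit false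

namespace Pool.Agent.Lib.HyA

open Finset Pool.Agent.Lib.HyE

variable {ι κ : Type} [Fintype ι] [Fintype κ] [DecidableEq κ] (D : Dat ι κ)

theorem uniq_BBE {E : ι → κ → (ι → ι → Prop) → Prop} (hE : Ext D E) {u v : ι → ι → ℝ}
    (hu : IsW u) (hv : IsW v) (hiu : Inn D (supp u)) (hiv : Inn D (supp v)) {c : ι}
    (hB : B1 D c (supp u)) (hB' : B1 D c (supp v))
    (h2 : ∀ p, p ≠ D.π c → E c p (supp u)) (h2' : ∀ p, p ≠ D.π c → E c p (supp v))
    (h3 : B3 D c (supp u)) (h3' : B3 D c (supp v))
    (hd : ∀ i, deg u i = deg v i) (i j : ι) : u i j = v i j := by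
  have key : ∀ z, D.π z ≠ D.π c → u c z = v c z := by
    intro z hz
    refine hE.uniq c (D.π z) hz u v hu hv (h2 _ hz) (h2' _ hz) ?_ ?_ z rfl
    · intro k hk
      have hk' : D.π k ≠ D.π c := by rw [hk]; exact hz
      have h := hd k
      rw [deg_split D.π u k, deg_split D.π v k, bf_out D hu hB hk', bf_out D hv hB' hk'] at h
      exact h
    · have h := uniq_cls D hu hv hB hB' h3 h3' hd (D.π z) hz
      unfold cs at h
      have e1 : ∑ k ∈ univ.filter (fun k => D.π k = D.π z), u c k =
          ∑ k ∈ univ.filter (fun k => D.π k = D.π z), out D.π u k :=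
        Finset.sum_congr rfl fun k hk => (bf_out D hu hB (by rw [(Finset.mem_filter.1 hk).2]; exact hz)).symm
      have e2 : ∑ k ∈ univ.filter (fun k => D.π k = D.π z), v c k =
          ∑ k ∈ univ.filter (fun k => D.π k = D.π z), out D.π v k :=
        Finset.sum_congr rfl fun k hk => (bf_out D hv hB' (by rw [(Finset.mem_filter.1 hk).2]; exact hz)).symm
      rw [e1, e2, h]
  refine uniq_of_out D hu hv hiu hiv hd (fun a b hab => ?_) i j
  by_cases ha : a = c
  · subst ha
    exact key b fun e => hab e.symm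
  · by_cases hb : b = c
    · subst hb
      rw [hu.sym a b, hv.sym a b]
      exact key a hab
    · rw [bf_zero D hu hB hab ha hb, bf_zero D hv hB' hab ha hb]

end Pool.Agent.Lib.HyA
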