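import Pool.Agent.Lib.HyA.Defs
import Pool.Agent.Lib.HyE.ExP
import Pool.Agent.Lib.HyE.Glu

/-!
# HyA, row REx: existence, type B, with extensions

PROOF IN WORDS. As row ExB of HyE (landed, use it as a model), with another choice of the outer weights. Let `O, o0` be from
`ex_num` and `c = rep q`, `s p = cs D.π x p`. For `p ≠ q`: `0 ≤ O p ≤ s p` and `2 x i - s p ≤ O p` for `i` in `p` (from the
statements on `o0`: `O p = cs o0 p`, `0 ≤ o0 i ≤ x i`, and `2 (x i - o0 i) ≤ s p - O p`, `o0 i ≤ O p` (`le_cs` style)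
give `2 x i - s p ≤ 2 o0 i - O p ≤ O p`). `hE.exi c p` gives `U_p`; let `o i = U_(π i) c i` for `π i ≠ q` and `0` for `π i = q`. So
`0 ≤ o i ≤ x i`, `cs o p = O p`, and `x i - o i = inn (U_p) i`, `2 (x i - o i) ≤ s p - O p` (`2 inn i ≤ cs inn`: `cs_inn`,
`rst_nonneg`, and `cs (inn U_p) p = s p - O p`). Let `W`, `y` and `u` be as in ExB (`glue`). For `E c p (supp u)`, `p ≠ q`:
by `hE.mono` it is enough that `supp u ⊆ supp U_p` on the class `p` and `c`: `u c i = W c i = o i = U_p c i`; and for
`i, j` in `p`: `u i j = U_p i j` by `(D.hA p).uniq` for the restrictions to the subtype (both satisfy `D.A p`: `Inn` for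
`u`, `hE.exi` for `U_p`; the degrees are `inn u i = y i = x i - o i = inn U_p i`, as in `uniq_inn` of HyE.Cls). `B1`, `B3`,
degrees as in ExB.
-/

set_option autoImplicit false

namespace Pool.Agent.Lib.HyA

open Finset Pool.Agent.Lib.HyE

variable {ι κ : Type} [Fintype ι] [Fintype κ] [DecidableEq κ] (D : Dat ι κ)

private theorem rex_isW {u : ι → ι → ℝ} (hu : IsW u) (p : κ) :
    IsW (fun a b : {i // D.π i = p} => u a b) :=
  ⟨fun i j => hu.nn i j, fun i j => hu.sym i j, fun i => hu.dg i⟩

private theorem rex_deg (u : ι → ι → ℝ) (p : κ) (a : {i // D.π i = p}) :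
    deg (fun a b : {i // D.π i = p} => u a b) a = inn D.π u a := by
  unfold deg inn
  rw [a.2]
  exact (Finset.sum_subtype (univ.filter fun j => D.π j = p) (by simp) (fun j => u a j)).symm

private theorem rex_uniq {u v : ι → ι → ℝ} (hu : IsW u) (hv : IsW v) (p : κ)
    (hiu : D.A p (res D p (supp u))) (hiv : D.A p (res D p (supp v)))
    (h : ∀ i, D.π i = p → inn D.π u i = inn D.π v i) (i j : ι)
    (hi : D.π i = p) (hj : D.π j = p) : u i j = v i j :=
  (D.hA p).uniq (fun a b : {k // D.π k = p} => u a b)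
    (fun a b : {k // D.π k = p} => v a b) (rex_isW D hu _) (rex_isW D hv _) hiu
    hiv (fun a => by rw [rex_deg, rex_deg, h a a.2]) ⟨i, hi⟩ ⟨j, hj⟩

private theorem rex_cs_sub {ι κ : Type} [Fintype ι] [DecidableEq κ] (π : ι → κ) (x y : ι → ℝ) (p : κ) :
    cs π (fun i => x i - y i) p = cs π x p - cs π y p := by
  unfold cs
  rw [Finset.sum_sub_distrib]

private theorem rex_cs_congr {ι κ : Type} [Fintype ι] [DecidableEq κ] (π : ι → κ) (x y : ι → ℝ) (p : κ)
    (h : ∀ i, π i = p → x i = y i) : cs π x p = cs π y p := by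
  unfold cs
  refine Finset.sum_congr rfl fun i hi => h i ?_
  simpa using hi

private theorem rex_cs_mono {ι κ : Type} [Fintype ι] [DecidableEq κ] (π : ι → κ) (x y : ι → ℝ) (p : κ)
    (h : ∀ i, π i = p → x i ≤ y i) : cs π x p ≤ cs π y p := by
  unfold cs
  refine Finset.sum_le_sum fun i hi => h i ?_
  simpa using hi

theorem ex_BE {E : ι → κ → (ι → ι → Prop) → Prop} (hE : Ext D E)
    (x : ι → ℝ) (hx : ∀ i, 0 ≤ x i) (hx2 : ∀ i, 2 * x i ≤ ∑ j, x j)
    (rep : κ → ι) (hrep : ∀ p, D.π (rep p) = p)
    (hmax : ∀ i, x i ≤ x (rep (D.π i))) (q : κ)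
    (hB : ∑ p, max 0 (2 * x (rep p) - cs D.π x p) <
      2 * max 0 (2 * x (rep q) - cs D.π x q)) :
    ∃ u : ι → ι → ℝ, IsW u ∧ Inn D (supp u) ∧ B1 D (rep q) (supp u) ∧
      (∀ p, p ≠ q → E (rep q) p (supp u)) ∧ B3 D (rep q) (supp u) ∧ ∀ i, deg u i = x i := by
  classical
  obtain ⟨O, o0, g1, g2, g3, -, g5, h6, h7⟩ := ex_num D x hx hx2 rep hrep hmax q hB
  have hπc : D.π (rep q) = q := hrep q
  generalize hc : rep q = c at *
  have ho0 : ∀ i, 0 ≤ o0 i := by
    intro i
    by_cases hi : D.π i = q
    · rw [g1 i hi]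
    · exact (g2 i hi).1
  have hU : ∀ p, p ≠ q → ∃ u : ι → ι → ℝ, IsW u ∧ E c p (supp u) ∧ D.A p (res D p (supp u)) ∧
      (∀ i, D.π i = p → inn D.π u i + u c i = x i) ∧
      ∑ i ∈ univ.filter (fun i => D.π i = p), u c i = O p := by
    intro p hp
    refine hE.exi c p (by rw [hπc]; exact hp) x hx (O p) ?_ ?_ ?_
    · rw [← g3 p hp]
      exact cs_nonneg D.π ho0 p
    · rw [← g3 p hp]
      refine rex_cs_mono D.π _ _ p fun i hi => (g2 i ?_).2.1
      rw [hi]
      exact hp
    · intro i hi
      have h8 := (g2 i (by rw [hi]; exact hp)).2.2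
      have h9 := le_cs D.π ho0 i
      rw [hi] at h8 h9
      rw [g3 p hp] at h9
      linarith
  choose U hUW hUE hUA hUx hUO using hU
  obtain ⟨o, hodef⟩ : ∃ o : ι → ℝ, o = fun i => if h : D.π i = q then 0 else U (D.π i) h c i :=
    ⟨_, rfl⟩
  have h1 : ∀ i, D.π i = q → o i = 0 := fun i hi => by rw [hodef]; simp [hi]
  have hop : ∀ p (h : p ≠ q) (i : ι), D.π i = p → o i = U p h c i := by
    rintro p h i rfl
    rw [hodef]
    simp [h]
  have h3 : ∀ p, p ≠ q → cs D.π o p = O p := by
    intro p hp
    rw [← hUO p hp]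
    unfold cs
    refine Finset.sum_congr rfl fun i hi => ?_
    exact hop p hp i (Finset.mem_filter.1 hi).2
  have hxo : ∀ p (hp : p ≠ q) (i : ι), D.π i = p → x i - o i = inn D.π (U p hp) i := by
    intro p hp i hi
    rw [hop p hp i hi, ← hUx p hp i hi]
    ring
  have h2 : ∀ i, D.π i ≠ q → 0 ≤ o i ∧ o i ≤ x i ∧
      2 * (x i - o i) ≤ cs D.π x (D.π i) - O (D.π i) := by
    intro i hi
    refine ⟨?_, ?_, ?_⟩
    · rw [hop _ hi i rfl]
      exact (hUW _ hi).nn c i
    · have h8 := hxo _ hi i rfl
      have h9 := inn_nonneg D.π (hUW _ hi) i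
      linarith
    · have h8 : cs D.π (inn D.π (U (D.π i) hi)) (D.π i) = cs D.π x (D.π i) - O (D.π i) := by
        rw [← h3 _ hi, ← rex_cs_sub]
        exact rex_cs_congr D.π _ _ _ fun j hj => (hxo _ hi j hj).symm
      rw [← h8, cs_inn D.π (hUW _ hi) i, hxo _ hi i rfl]
      have h9 := rst_nonneg D.π (hUW _ hi) i
      linarith
  have h5 : ∑ i, o i = 2 * x c - cs D.π x q := by
    rw [← g5, ← cs_total D.π o, ← cs_total D.π o0]
    refine Finset.sum_congr rfl fun p _ => ?_
    by_cases hp : p = q
    · rw [hp]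
      exact rex_cs_congr D.π _ _ _ fun j hj => by rw [h1 j hj, g1 j hj]
    · rw [h3 p hp, g3 p hp]
  have ho : ∀ i, 0 ≤ o i := by
    intro i
    by_cases hi : D.π i = q
    · rw [h1 i hi]
    · exact (h2 i hi).1
  obtain ⟨W, hWdef⟩ : ∃ W : ι → ι → ℝ, ∀ i j, W i j = if i = c then o j else if j = c then o i else 0 :=
    ⟨fun i j => if i = c then o j else if j = c then o i else 0, fun _ _ => rfl⟩
  have hoc : o c = 0 := h1 c hπc
  have hW : IsW W := by
    constructor
    · intro i j
      rw [hWdef]
      split_ifs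
      · exact ho j
      · exact ho i
      · exact le_rfl
    · intro i j
      rw [hWdef, hWdef]
      by_cases hi : i = c <;> by_cases hj : j = c
      · simp [hi, hj]
      · simp [hi, hj]
      · simp [hi, hj]
      · simp [hi, hj]
    · intro i
      rw [hWdef]
      by_cases hi : i = c
      · simp [hi, hoc]
      · simp [hi]
  have hW0 : ∀ i j, D.π i = D.π j → W i j = 0 := by
    intro i j hij
    rw [hWdef]
    split_ifs with hi hj
    · rw [hi, hπc] at hij
      exact h1 j hij.symm
    · rw [hj, hπc] at hij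
      exact h1 i hij
    · rfl
  have hWc : deg W c = 2 * x c - cs D.π x q := by
    rw [← h5]
    unfold deg
    refine Finset.sum_congr rfl fun j _ => ?_
    rw [hWdef, if_pos rfl]
  have hWi : ∀ i, i ≠ c → deg W i = o i := by
    intro i hi
    unfold deg
    rw [Finset.sum_eq_single c]
    · rw [hWdef, if_neg hi, if_pos rfl]
    · intro j _ hj
      rw [hWdef, if_neg hi, if_neg hj]
    · intro h
      exact absurd (mem_univ _) h
  have hne : ∀ i, D.π i ≠ q → i ≠ c := by
    intro i hi h
    rw [h] at hi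
    exact hi hπc
  obtain ⟨y, hydef⟩ : ∃ y : ι → ℝ, ∀ i, y i = x i - deg W i := ⟨fun i => x i - deg W i, fun _ => rfl⟩
  have hyf : y = fun i => x i - deg W i := funext hydef
  have hxc : x c ≤ cs D.π x q := by
    have := le_cs D.π hx c
    rwa [hπc] at this
  have hy : ∀ i, 0 ≤ y i := by
    intro i
    rw [hydef]
    by_cases hi : i = c
    · rw [hi, hWc]
      linarith
    · rw [hWi i hi]
      by_cases hiq : D.π i = q
      · rw [h1 i hiq]
        linarith [hx i]
      · linarith [(h2 i hiq).2.1]
  have hcsW : ∀ p, p ≠ q → cs D.π (deg W) p = O p := by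
    intro p hp
    rw [← h3 p hp]
    refine rex_cs_congr D.π _ _ p fun i hi => hWi i (hne i ?_)
    rw [hi]
    exact hp
  have hcsWq : cs D.π (deg W) q = 2 * x c - cs D.π x q := by
    rw [← hWc]
    unfold cs
    rw [Finset.sum_eq_single c]
    · intro j hj hjc
      rw [hWi j hjc]
      refine h1 j ?_
      simpa using hj
    · intro h
      exact absurd (by simp [hπc]) h
  have hcy : ∀ p, p ≠ q → cs D.π y p = cs D.π x p - O p := by
    intro p hp
    rw [hyf, rex_cs_sub, hcsW p hp]
  have hcyq : cs D.π y q = 2 * (cs D.π x q - x c) := by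
    rw [hyf, rex_cs_sub, hcsWq]
    ring
  have hyc : y c = cs D.π x q - x c := by
    rw [hydef, hWc]
    ring
  have hb : ∀ i, 2 * y i ≤ cs D.π y (D.π i) := by
    intro i
    by_cases hiq : D.π i = q
    · rw [hiq, hcyq]
      by_cases hi : i = c
      · rw [hi, hyc]
      · rw [hydef, hWi i hi, h1 i hiq]
        have := le_cs2 D.π hx i c hi (by rw [hπc, hiq])
        rw [hiq] at this
        linarith
    · rw [hcy _ hiq, hydef, hWi i (hne i hiq)]
      exact (h2 i hiq).2.2
  obtain ⟨u, hu, hInn, huW, hinn, hout⟩ := glue D y hy hb W hW hW0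
  have hinn' : inn D.π u = y := funext hinn
  have hout' : out D.π u = deg W := funext hout
  have hdeg : ∀ i, deg u i = x i := by
    intro i
    rw [deg_split D.π u i, hinn, hout, hydef]
    ring
  have hdeg' : deg u = x := funext hdeg
  refine ⟨u, hu, hInn, ?_, ?_, ?_, hdeg⟩
  · -- B1
    intro i j hS hor
    by_cases hij : D.π i = D.π j
    · have hiq : D.π i = D.π c := by
        rcases hor with h | h
        · exact absurd hij h
        · exact h
      have hr : rst D.π u c = 0 := by
        have := cs_inn D.π hu c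
        rw [hinn', hπc, hcyq, hyc] at this
        linarith
      by_contra hcon
      push Not at hcon
      have := (rst_zero D.π hu c).1 hr i j hiq (hij ▸ hiq) hcon.1 hcon.2
      have hS' : 0 < u i j := hS
      linarith
    · have hS' : 0 < u i j := hS
      rw [huW i j hij, hWdef] at hS'
      by_contra hcon
      push Not at hcon
      rw [if_neg hcon.1, if_neg hcon.2] at hS'
      exact lt_irrefl _ hS'
  · -- the extensions
    intro p hp
    have hin : ∀ i j, D.π i = p → D.π j = p → u i j = U p hp i j := by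
      intro i j hi hj
      refine rex_uniq D hu (hUW p hp) p (hInn p) (hUA p hp) (fun k hk => ?_) i j hi hj
      have hkq : D.π k ≠ q := by rw [hk]; exact hp
      rw [hinn, hydef, hWi k (hne k hkq), hxo p hp k hk]
    have hcj : ∀ j, D.π j = p → u c j = U p hp c j := by
      intro j hj
      rw [huW c j (by rw [hπc, hj]; exact fun h => hp h.symm), hWdef, if_pos rfl, hop p hp j hj]
    refine hE.mono c p (supp u) (supp (U p hp)) ?_ (hUE p hp)
    intro i j hi hj hS
    have hS' : 0 < u i j := hS
    show 0 < U p hp i j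
    rcases hi with hi | hi
    · rcases hj with hj | hj
      · rw [← hin i j hi hj]
        exact hS'
      · rw [hj, (hUW p hp).sym, ← hcj i hi, hu.sym, ← hj]
        exact hS'
    · rcases hj with hj | hj
      · rw [hi, ← hcj j hj, ← hi]
        exact hS'
      · rw [hi, hj, hu.dg] at hS'
        exact absurd hS' (lt_irrefl _)
  · -- B3
    intro p p' hp hp' hρ hex
    obtain ⟨k, l, hk, hl, hS⟩ := hex
    rw [hπc] at hp hp'
    have hyk : 0 < y k := by
      have hS' : 0 < u k l := hS
      have := le_inn D.π hu k l (by rw [hl, hk])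
      rw [hinn] at this
      linarith
    have h8 : O p' < cs D.π x p' := by
      have := le_cs D.π hy k
      rw [hk, hcy p' hp'] at this
      linarith
    have h9 := h7 p p' hp hp' hρ h8
    by_cases hpos : 2 * x (rep p) - cs D.π x p ≤ 0
    · left
      intro b hb' hS'
      rw [max_eq_left hpos, ← h3 p hp] at h9
      have h10 := le_cs D.π ho b
      rw [hb', h9] at h10
      have hcb : D.π c ≠ D.π b := by
        rw [hπc, hb']
        exact fun h => hp h.symm
      have hS'' : 0 < u c b := hS'
      rw [huW c b hcb, hWdef, if_pos rfl] at hS''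
      linarith
    · right
      push Not at hpos
      rw [max_eq_right hpos.le] at h9
      refine ⟨rep p, hrep p, ?_⟩
      have h10 : 2 * deg u (rep p) - cs D.π (deg u) (D.π (rep p)) =
          cs D.π (out D.π u) (D.π (rep p)) := by
        rw [hdeg', hout', hrep, hcsW p hp, h9]
      obtain ⟨-, h11, h12⟩ := low_eq D.π hu (rep p) h10
      rw [hrep] at h11 h12
      constructor
      · intro i j hi hj hS'
        by_contra hcon
        push Not at hcon
        have := h12 i j hi hj hcon.1 hcon.2
        have hS'' : 0 < u i j := hS'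
        linarith
      · intro i hi hS'
        by_contra hcon
        have h13 := h11 i hi hcon
        have h14 := le_out D.π hu i c (by
          rw [hπc, hi]
          exact fun h => hp h.symm)
        rw [h13] at h14
        have hS'' : 0 < u c i := hS'
        rw [hu.sym] at hS''
        linarith

end Pool.Agent.Lib.HyA
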