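import Pool.Agent.Lib.HyA.Defs

/-!
# HyA, row RIv: equivariance, with extensions

PROOF IN WORDS. As row Inv of HyE (landed, use it as a model): `Inn`, `A1`, `A2`, `B1`, `B3`, `Full` are the same; the middle condition by
`hE` for `p = τ (τ.symm p)`.
-/

set_option autoImplicit false

namespace Pool.Agent.Lib.HyA

open Finset Pool.Agent.Lib.HyE

variable {ι κ : Type} [Fintype ι] [Fintype κ] [DecidableEq κ] (D : Dat ι κ)

theorem can_invE (E : ι → κ → (ι → ι → Prop) → Prop)
    (σ : Equiv.Perm ι) (τ : Equiv.Perm κ) (hπ : ∀ i, D.π (σ i) = τ (D.π i))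
    (hρ : ∀ c p, D.ρ (σ c) (τ p) = D.ρ c p)
    (hCb : ∀ S, D.Cb S → D.Cb (fun p q => S (τ.symm p) (τ.symm q)))
    (hA : ∀ p (S : ι → ι → Prop), D.A p (fun a b => S a b) →
      D.A (τ p) (fun a b => S (σ.symm a) (σ.symm b)))
    (hE : ∀ c p (S : ι → ι → Prop), E c p S → E (σ c) (τ p) (fun i j => S (σ.symm i) (σ.symm j)))
    (S : ι → ι → Prop) (h : CanE D E S) : CanE D E (fun i j => S (σ.symm i) (σ.symm j)) := by
  have hπs : ∀ i, D.π (σ.symm i) = τ.symm (D.π i) := by
    intro i
    have h1 := hπ (σ.symm i)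
    rw [Equiv.apply_symm_apply] at h1
    rw [h1, Equiv.symm_apply_apply]
  have hne : ∀ i j, D.π i ≠ D.π j → D.π (σ.symm i) ≠ D.π (σ.symm j) := by
    intro i j hij h1
    rw [hπs, hπs] at h1
    exact hij (τ.symm.injective h1)
  have heq : ∀ i j, D.π i = D.π j → D.π (σ.symm i) = D.π (σ.symm j) := by
    intro i j hij
    rw [hπs, hπs, hij]
  have hρ' : ∀ c p, D.ρ (σ c) p = D.ρ c (τ.symm p) := by
    intro c p
    have h1 := hρ c (τ.symm p)
    rwa [Equiv.apply_symm_apply] at h1
  refine ⟨?_, ?_⟩
  · -- inside the classes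
    intro p
    obtain ⟨p0, rfl⟩ := τ.surjective p
    exact hA p0 S (h.1 p0)
  · rcases h.2 with ⟨h1, h2⟩ | ⟨c, h1, h2, h3⟩
    · left
      refine ⟨?_, ?_⟩
      · intro i j k l hij hπij hkl hπki
        rcases h1 _ _ _ _ hij (hne _ _ hπij) hkl (heq _ _ hπki) with h3 | h3
        · exact Or.inl (σ.symm.injective h3)
        · exact Or.inr (σ.symm.injective h3)
      · refine D.hCb.mono _ _ ?_ (hCb _ h2)
        rintro p q ⟨hpq, i, j, hij, hi, hj⟩
        refine ⟨fun h3 => hpq (τ.symm.injective h3), σ.symm i, σ.symm j, hij, ?_, ?_⟩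
        · rw [hπs, hi]
        · rw [hπs, hj]
    · right
      have hcs : σ.symm (σ c) = c := Equiv.symm_apply_apply σ c
      refine ⟨σ c, ?_, ?_, ?_⟩
      · intro i j hij hor
        have hor' : D.π (σ.symm i) ≠ D.π (σ.symm j) ∨ D.π (σ.symm i) = D.π c := by
          rcases hor with h4 | h4
          · exact Or.inl (hne _ _ h4)
          · right
            have h5 := heq _ _ h4
            rwa [hcs] at h5
        rcases h1 _ _ hij hor' with h4 | h4
        · exact Or.inl ((Equiv.symm_apply_eq σ).1 h4)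
        · exact Or.inr ((Equiv.symm_apply_eq σ).1 h4)
      · intro p hp
        have hcp : τ.symm p ≠ D.π c := by
          intro h4
          apply hp
          rw [hπ, ← h4, Equiv.apply_symm_apply]
        have h4 := hE c (τ.symm p) S (h2 (τ.symm p) hcp)
        rwa [Equiv.apply_symm_apply] at h4
      · intro p p' hp hp' hlt hex
        rw [hρ', hρ'] at hlt
        have hcp : ∀ q, q ≠ D.π (σ c) → τ.symm q ≠ D.π c := by
          intro q hq h4
          apply hq
          rw [hπ, ← h4, Equiv.apply_symm_apply]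
        obtain ⟨k, l, hk, hl, hkl⟩ := hex
        have hfull : Full D c S (τ.symm p) := by
          refine h3 _ _ (hcp p hp) (hcp p' hp') hlt ⟨σ.symm k, σ.symm l, ?_, ?_, hkl⟩
          · rw [hπs, hk]
          · rw [hπs, hl]
        rcases hfull with h4 | ⟨b, hb, h5, h6⟩
        · left
          intro b hb hS
          refine h4 (σ.symm b) (by rw [hπs, hb]) ?_
          have h5 : S (σ.symm (σ c)) (σ.symm b) := hS
          rwa [hcs] at h5
        · right
          refine ⟨σ b, ?_, ?_, ?_⟩
          · rw [hπ, hb, Equiv.apply_symm_apply]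
          · intro i j hi hj hij
            rcases h5 _ _ (by rw [hπs, hi]) (by rw [hπs, hj]) hij with h7 | h7
            · exact Or.inl ((Equiv.symm_apply_eq σ).1 h7)
            · exact Or.inr ((Equiv.symm_apply_eq σ).1 h7)
          · intro i hi hS
            have h7 : S (σ.symm (σ c)) (σ.symm i) := hS
            rw [hcs] at h7
            exact (Equiv.symm_apply_eq σ).1 (h6 _ (by rw [hπs, hi]) h7)

end Pool.Agent.Lib.HyA
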