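import Pool.Agent.Lib.HyA.Lx

/-!
# HyA, row Un: the triangulation of the optimal sets, uniqueness part

PROOF IN WORDS. Let `w = u - v`, `S i j` iff `0 < u i j` or `0 < v i j` (symmetric). It is enough to show `Opt cl S` (then `hU`). First:
`d = v - u` takes weight only from pairs with `u > 0`, and `u - v` only from pairs with `v > 0`, so neither
`wt (v - u)` nor `wt (u - v)` is `LexPos`, and by `lex_tri` `wt (v - u) = 0`. Now let `d` be as in the definition
of `Opt cl S` with `LexPos (wt cl d)`. Choose `ε > 0` with `ε * d i j ≥ -(u i j + v i j) / 2` for all `i, j` (finite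
type; `d i j < 0` only where `u i j + v i j > 0`; for instance a minimum over the finitely many pairs). Let
`d' = (v - u) / 2 + ε d = ((u + v) / 2 + ε d) - u`. It is negative only where `u > 0`, symmetric, of degree
zero, and `wt d' = ε wt d` is `LexPos`, a contradiction to `Opt cl (supp u)`.
-/

set_option autoImplicit false

namespace Pool.Agent.Lib.HyA

open Finset Pool.Agent.Lib.HyE

variable {ι : Type} [Fintype ι]

private theorem exists_eps (u v d : ι → ι → ℝ) (hu : IsW u) (hv : IsW v)
    (h4 : ∀ i j, d i j < 0 → 0 < u i j ∨ 0 < v i j) :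
    ∃ ε : ℝ, 0 < ε ∧ ∀ i j, -(u i j + v i j) / 2 ≤ ε * d i j := by
  have key : ∀ p : ι × ι, ∃ e : ℝ, 0 < e ∧ ∀ ε : ℝ, 0 < ε → ε ≤ e →
      -(u p.1 p.2 + v p.1 p.2) / 2 ≤ ε * d p.1 p.2 := by
    intro p
    have hu0 := hu.nn p.1 p.2
    have hv0 := hv.nn p.1 p.2
    by_cases hd : 0 ≤ d p.1 p.2
    · refine ⟨1, one_pos, fun ε hε _ => ?_⟩
      have := mul_nonneg hε.le hd
      linarith
    · have hd' : d p.1 p.2 < 0 := not_le.1 hd
      have hs : 0 < u p.1 p.2 + v p.1 p.2 := by
        rcases h4 p.1 p.2 hd' with h | h <;> linarith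
      refine ⟨(u p.1 p.2 + v p.1 p.2) / 2 / (- d p.1 p.2), div_pos (by linarith) (by linarith),
        fun ε hε he => ?_⟩
      rw [le_div_iff₀ (by linarith)] at he
      linarith
  choose e he1 he2 using key
  rcases isEmpty_or_nonempty (ι × ι) with h | h
  · exact ⟨1, one_pos, fun i j => (h.false (i, j)).elim⟩
  · obtain ⟨p0, _, hp0⟩ := exists_min_image (univ : Finset (ι × ι)) e ⟨Classical.arbitrary _, mem_univ _⟩
    exact ⟨e p0, he1 p0, fun i j => he2 (i, j) (e p0) (he1 p0) (hp0 (i, j) (mem_univ _))⟩

theorem opt_uniq {cl : ι → ι → ℕ} (hU : Unq cl) (u v : ι → ι → ℝ) (hu : IsW u) (hv : IsW v)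
    (hou : Opt cl (supp u)) (hov : Opt cl (supp v)) (hd : ∀ i, deg u i = deg v i) (i j : ι) :
    u i j = v i j := by
  have hz : ∀ k, wt cl (fun i j => v i j - u i j) k = 0 := by
    rcases lex_tri cl (fun i j => v i j - u i j) with h | h | h
    · refine absurd h (hou _ (fun i j => ?_) (fun i => ?_) (fun i => ?_) (fun i j h => ?_))
      · show v i j - u i j = v j i - u j i
        rw [hu.sym i j, hv.sym i j]
      · show v i i - u i i = 0
        rw [hu.dg, hv.dg, sub_zero]
      · show ∑ j, (v i j - u i j) = 0
        rw [sum_sub_distrib]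
        have := hd i
        unfold deg at this
        rw [this, sub_self]
      · have h' : v i j - u i j < 0 := h
        have := hv.nn i j
        show 0 < u i j
        linarith
    · refine absurd h (hov _ (fun i j => ?_) (fun i => ?_) (fun i => ?_) (fun i j h => ?_))
      · show - (v i j - u i j) = - (v j i - u j i)
        rw [hu.sym i j, hv.sym i j]
      · show - (v i i - u i i) = 0
        rw [hu.dg, hv.dg, sub_zero, neg_zero]
      · show ∑ j, - (v i j - u i j) = 0
        rw [sum_neg_distrib, sum_sub_distrib]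
        have := hd i
        unfold deg at this
        rw [this, sub_self, neg_zero]
      · have h' : - (v i j - u i j) < 0 := h
        have := hu.nn i j
        show 0 < v i j
        linarith
    · exact h
  have hO : Opt cl (fun i j => 0 < u i j ∨ 0 < v i j) := by
    intro d h1 h2 h3 h4 hL
    obtain ⟨ε, hε, hε2⟩ := exists_eps u v d hu hv h4
    have hw : ∀ k, wt cl (fun i j => 1 / 2 * (v i j - u i j) - (-ε) * d i j) k = ε * wt cl d k := by
      intro k
      rw [wt_sub cl (fun i j => 1 / 2 * (v i j - u i j)) (fun i j => (-ε) * d i j),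
        wt_smul cl (1 / 2) (fun i j => v i j - u i j), wt_smul cl (-ε) d, hz k]
      ring
    refine hou (fun i j => 1 / 2 * (v i j - u i j) - (-ε) * d i j) (fun i j => ?_) (fun i => ?_)
      (fun i => ?_) (fun i j h => ?_) ?_
    · show 1 / 2 * (v i j - u i j) - (-ε) * d i j = 1 / 2 * (v j i - u j i) - (-ε) * d j i
      rw [hu.sym i j, hv.sym i j, h1 i j]
    · show 1 / 2 * (v i i - u i i) - (-ε) * d i i = 0
      rw [hu.dg, hv.dg, h2]
      ring
    · show ∑ j, (1 / 2 * (v i j - u i j) - (-ε) * d i j) = 0
      rw [sum_sub_distrib, ← mul_sum, ← mul_sum, sum_sub_distrib]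
      have e1 := hd i
      have e2 := h3 i
      unfold deg at e1 e2
      rw [e1, e2]
      ring
    · have h' : 1 / 2 * (v i j - u i j) - (-ε) * d i j < 0 := h
      have := hε2 i j
      show 0 < u i j
      linarith
    · obtain ⟨k, hk1, hk2⟩ := hL
      refine ⟨k, ?_, fun l hl => ?_⟩
      · rw [hw k]
        exact mul_pos hε hk1
      · rw [hw l, hk2 l hl, mul_zero]
  have h0 := hU (fun i j => 0 < u i j ∨ 0 < v i j)
    (fun i j h => by
      rcases h with h | h
      · exact Or.inl (by rw [hu.sym j i]; exact h)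
      · exact Or.inr (by rw [hv.sym j i]; exact h))
    hO (fun i j => u i j - v i j)
    (fun i j => by
      show u i j - v i j = u j i - v j i
      rw [hu.sym i j, hv.sym i j])
    (fun i => by
      show u i i - v i i = 0
      rw [hu.dg, hv.dg, sub_zero])
    (fun i => by
      show ∑ j, (u i j - v i j) = 0
      rw [sum_sub_distrib]
      have := hd i
      unfold deg at this
      rw [this, sub_self])
    (fun i j h => by
      by_contra hc
      rw [not_or] at hc
      have a1 := hu.nn i j
      have a2 := hv.nn i j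
      have b1 := not_lt.1 hc.1
      have b2 := not_lt.1 hc.2
      exact h (by
        show u i j - v i j = 0
        linarith)) i j
  have h0' : u i j - v i j = 0 := h0
  linarith

end Pool.Agent.Lib.HyA
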