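import Pool.Agent.Lib.HyA.OTr
import Pool.Agent.Lib.HyA.Un
import Pool.Agent.Lib.HyA.Exs
import Pool.Agent.Lib.HyE.Cls

/-!
# HyA, row Sx: the extensions given by optimal sets

PROOF IN WORDS. `mono`: `opt_mono` and `lft` (cases). `uniq`: let `β = {i // D.π i = p}` and, for `u`, `û` on `Option β`: `û none (some a) = u c a`,
`û (some a) (some b) = u a b`, `û none none = 0`. `IsW`; `supp û = lft D.π c p (supp u)` (`u c c = 0` is not used:
`none, none ↦ False`). The degrees: at `some a`: `inn u a + u c a` (sum over the subtype), at `none`: the sum of the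
`u c a`. So `opt_uniq` with `hU c p` gives `û = v̂`. `exi`: apply `opt_exi` on `Option β` to `x̂ (some a) = x a`,
`x̂ none = O`: `2 x a ≤ s + O` and `2 O ≤ s + O`. The solution `û` gives `u` on `ι`: `u a b = û (some a) (some b)` for
`a, b` in the class, `u c a = u a c = û none (some a)`, and `0` otherwise (`c` is not in the class). `D.A p` by `hAo` and
`opt_inner`.
-/

set_option autoImplicit false

namespace Pool.Agent.Lib.HyA

open Finset Pool.Agent.Lib.HyE

variable {ι κ : Type} [Fintype ι] [Fintype κ] [DecidableEq κ] (D : Dat ι κ)

omit [Fintype κ] in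
private theorem sum_cls (π : ι → κ) (p : κ) (f : ι → ℝ) :
    ∑ j ∈ univ.filter (fun j => π j = p), f j = ∑ b : {i // π i = p}, f b :=
  Finset.sum_subtype (univ.filter (fun j => π j = p)) (by simp) f

/-- the weights on the class and the centre -/
private def hat (π : ι → κ) (c : ι) (p : κ) (u : ι → ι → ℝ) :
    Option {i // π i = p} → Option {i // π i = p} → ℝ
  | none, none => 0
  | none, some a => u c a
  | some a, none => u a c
  | some a, some b => u a b

omit [Fintype ι] [Fintype κ] [DecidableEq κ] in
private theorem hat_isW (π : ι → κ) (c : ι) (p : κ) {u : ι → ι → ℝ} (hu : IsW u) :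
    IsW (hat π c p u) where
  nn := by
    rintro (_ | a) (_ | b)
    · exact le_refl _
    · exact hu.nn _ _
    · exact hu.nn _ _
    · exact hu.nn _ _
  sym := by
    rintro (_ | a) (_ | b)
    · rfl
    · exact hu.sym _ _
    · exact hu.sym _ _
    · exact hu.sym _ _
  dg := by
    rintro (_ | a)
    · rfl
    · exact hu.dg _

omit [Fintype ι] [Fintype κ] [DecidableEq κ] in
private theorem hat_supp (π : ι → κ) (c : ι) (p : κ) (u : ι → ι → ℝ) :
    supp (hat π c p u) = lft π c p (supp u) := by
  funext a b
  rcases a with _ | a <;> rcases b with _ | b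
  · exact eq_false (lt_irrefl _)
  · rfl
  · rfl
  · rfl

omit [Fintype κ] in
private theorem hat_deg_some (π : ι → κ) (c : ι) (p : κ) {u : ι → ι → ℝ} (hu : IsW u)
    (a : {i // π i = p}) : deg (hat π c p u) (some a) = inn π u a + u c a := by
  unfold deg inn
  rw [Fintype.sum_option]
  have h : univ.filter (fun j => π j = π (a : ι)) = univ.filter (fun j => π j = p) := by
    rw [a.2]
  rw [h, sum_cls π p (fun j => u a j)]
  change u a c + ∑ b : {i // π i = p}, u a b = _
  rw [hu.sym a c, add_comm]

omit [Fintype κ] in
private theorem hat_deg_none (π : ι → κ) (c : ι) (p : κ) (u : ι → ι → ℝ) :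
    deg (hat π c p u) none = ∑ i ∈ univ.filter (fun i => π i = p), u c i := by
  unfold deg
  rw [Fintype.sum_option, sum_cls π p (fun j => u c j)]
  change (0 : ℝ) + ∑ b : {i // π i = p}, u c b = _
  rw [zero_add]

open Classical in
/-- the position of an index in the class with the centre -/
private noncomputable def emb (π : ι → κ) (c : ι) (p : κ) (i : ι) :
    Option (Option {i // π i = p}) :=
  if h : π i = p then some (some ⟨i, h⟩) else if i = c then some none else none

private noncomputable def back {β : Type} (uh : Option β → Option β → ℝ) :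
    Option (Option β) → Option (Option β) → ℝ
  | some a, some b => uh a b
  | _, _ => 0

omit [Fintype ι] [Fintype κ] in
private theorem emb_cls (π : ι → κ) (c : ι) (p : κ) (i : ι) (h : π i = p) :
    emb π c p i = some (some ⟨i, h⟩) := by
  unfold emb
  rw [dif_pos h]

omit [Fintype ι] [Fintype κ] in
private theorem emb_c (π : ι → κ) (c : ι) (p : κ) (h : p ≠ π c) :
    emb π c p c = some none := by
  unfold emb
  rw [dif_neg (fun h' => h h'.symm), if_pos rfl]

private theorem back_isW {β : Type} {uh : Option β → Option β → ℝ} (hu : IsW uh)
    {γ : Type} (e : γ → Option (Option β)) : IsW (fun i j => back uh (e i) (e j)) where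
  nn := by
    intro i j
    rcases e i with _ | a <;> rcases e j with _ | b
    · exact le_refl _
    · exact le_refl _
    · exact le_refl _
    · exact hu.nn a b
  sym := by
    intro i j
    rcases e i with _ | a <;> rcases e j with _ | b
    · rfl
    · rfl
    · rfl
    · exact hu.sym a b
  dg := by
    intro i
    rcases e i with _ | a
    · rfl
    · exact hu.dg a

theorem ext_opt (cl : ι → ι → ℕ) (τ : ι → ι → ℕ) (M : ℕ)
    (hAo : ∀ p S, D.A p S ↔ Opt (fun a b : {i // D.π i = p} => cl a b) S)
    (hU : ∀ c p, p ≠ D.π c → Unq (ocl M (fun a : {i // D.π i = p} => τ c a)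
      (fun a b : {i // D.π i = p} => cl a b))) :
    Ext D (fun c p S => Opt (ocl M (fun a : {i // D.π i = p} => τ c a)
      (fun a b : {i // D.π i = p} => cl a b)) (lft D.π c p S)) where
  mono := by
    intro c p S S' h hO
    refine opt_mono ?_ hO
    rintro (_ | a) (_ | b) hab
    · exact hab
    · exact h c b (Or.inr rfl) (Or.inl b.2) hab
    · exact h a c (Or.inl a.2) (Or.inr rfl) hab
    · exact h a b (Or.inl a.2) (Or.inl b.2) hab
  uniq := by
    intro c p hp u v hu hv hEu hEv hd hs i hi
    have h := opt_uniq (hU c p hp) (hat D.π c p u) (hat D.π c p v) (hat_isW D.π c p hu)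
      (hat_isW D.π c p hv) (by rw [hat_supp]; exact hEu) (by rw [hat_supp]; exact hEv)
      (by
        rintro (_ | a)
        · rw [hat_deg_none, hat_deg_none]; exact hs
        · rw [hat_deg_some D.π c p hu, hat_deg_some D.π c p hv]; exact hd a a.2)
      none (some ⟨i, hi⟩)
    exact h
  exi := by
    intro c p hp x hx O hO hOs h2
    have hcs : cs D.π x p = ∑ b : {i // D.π i = p}, x b := sum_cls D.π p x
    let xh : Option {i // D.π i = p} → ℝ := fun o => match o with
      | none => O
      | some a => x a
    have hsum : ∑ o, xh o = O + cs D.π x p := by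
      rw [Fintype.sum_option, hcs]
    obtain ⟨uh, huW, huO, hud⟩ := opt_exi (ocl M (fun a : {i // D.π i = p} => τ c a)
      (fun a b : {i // D.π i = p} => cl a b)) xh
      (by
        rintro (_ | a)
        · exact hO
        · exact hx a)
      (by
        intro o
        rw [hsum]
        rcases o with _ | a
        · change 2 * O ≤ _
          linarith
        · change 2 * x a ≤ _
          have := h2 a a.2
          linarith)
    have hsome : ∀ (i : ι) (hi : D.π i = p) (j : ι) (hj : D.π j = p),
        back uh (emb D.π c p i) (emb D.π c p j) = uh (some ⟨i, hi⟩) (some ⟨j, hj⟩) := by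
      intro i hi j hj
      rw [emb_cls D.π c p i hi, emb_cls D.π c p j hj]
      rfl
    have hnone : ∀ (j : ι) (hj : D.π j = p),
        back uh (emb D.π c p c) (emb D.π c p j) = uh none (some ⟨j, hj⟩) := by
      intro j hj
      rw [emb_c D.π c p hp, emb_cls D.π c p j hj]
      rfl
    have hnone' : ∀ (j : ι) (hj : D.π j = p),
        back uh (emb D.π c p j) (emb D.π c p c) = uh (some ⟨j, hj⟩) none := by
      intro j hj
      rw [emb_c D.π c p hp, emb_cls D.π c p j hj]
      rfl
    refine ⟨fun i j => back uh (emb D.π c p i) (emb D.π c p j), back_isW huW _, ?_, ?_, ?_, ?_⟩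
    · have hl : lft D.π c p (supp (fun i j => back uh (emb D.π c p i) (emb D.π c p j))) =
          supp uh := by
        funext a b
        rcases a with _ | a <;> rcases b with _ | b
        · refine (eq_false ?_).symm
          change ¬ (0 < uh none none)
          rw [huW.dg]
          exact lt_irrefl _
        · change (0 < back uh (emb D.π c p c) (emb D.π c p b)) = (0 < uh none (some b))
          rw [hnone b b.2]
        · change (0 < back uh (emb D.π c p a) (emb D.π c p c)) = (0 < uh (some a) none)
          rw [hnone' a a.2]
        · change (0 < back uh (emb D.π c p a) (emb D.π c p b)) = (0 < uh (some a) (some b))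
          rw [hsome a a.2 b b.2]
      rw [hl]
      exact huO
    · rw [hAo]
      have hr : res D p (supp (fun i j => back uh (emb D.π c p i) (emb D.π c p j))) =
          fun a b => supp uh (some a) (some b) := by
        funext a b
        change (0 < back uh (emb D.π c p a) (emb D.π c p b)) = (0 < uh (some a) (some b))
        rw [hsome a a.2 b b.2]
      rw [hr]
      exact opt_inner M _ _ (supp uh) huO
    · intro i hi
      have h1 := hud (some ⟨i, hi⟩)
      unfold deg at h1
      rw [Fintype.sum_option] at h1
      have h3 : inn D.π (fun i j => back uh (emb D.π c p i) (emb D.π c p j)) i =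
          ∑ b : {i // D.π i = p}, uh (some ⟨i, hi⟩) (some b) := by
        unfold inn
        have h : univ.filter (fun j => D.π j = D.π i) = univ.filter (fun j => D.π j = p) := by
          rw [hi]
        rw [h, sum_cls D.π p]
        exact Finset.sum_congr rfl (fun b _ => hsome i hi b b.2)
      rw [h3]
      change _ + back uh (emb D.π c p c) (emb D.π c p i) = x i
      rw [hnone i hi, huW.sym none (some ⟨i, hi⟩), add_comm]
      exact h1
    · have h1 := hud none
      unfold deg at h1
      rw [Fintype.sum_option, huW.dg none, zero_add] at h1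
      rw [sum_cls D.π p]
      refine Eq.trans ?_ h1
      exact Finset.sum_congr rfl (fun b _ => hnone b b.2)

end Pool.Agent.Lib.HyA
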