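import Pool.Agent.Lib.HyA.Defs

/-!
# HyA, row Tau: equivariant numbering of the orbits of the point stabilisers

PROOF IN WORDS. Choose a representative `R c` of the `G`-orbit of `c` (the same for the whole orbit) and `g c ∈ G` with
`g c (R c) = c`. For every `a : ι` choose an injective numbering `f a` of the orbits of the stabiliser `G_a` (quotient of
`ι` by the relation `∃ σ ∈ G, σ a = a ∧ σ i = j`, finite). Let `τ c i = f (R c) (class of (g c)⁻¹ i)`. Equivariance:
`R (σ c) = R c`, and `κ = (g (σ c))⁻¹ * σ * g c` is in `G` and fixes `R c`, so `(g (σ c))⁻¹ (σ i) = κ ((g c)⁻¹ i)` is in the same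
orbit of `G_(R c)`. If `τ c i = τ c j` then `κ ((g c)⁻¹ i) = (g c)⁻¹ j` with `κ ∈ G` fixing `R c`, and
`σ = g c * κ * (g c)⁻¹`.
-/

set_option autoImplicit false

namespace Pool.Agent.Lib.HyA

open Finset Pool.Agent.Lib.HyE

theorem tau_exists {ι : Type} [Fintype ι] (G : Subgroup (Equiv.Perm ι)) :
    ∃ τ : ι → ι → ℕ, (∀ σ ∈ G, ∀ c i, τ (σ c) (σ i) = τ c i) ∧
      ∀ c i j, τ c i = τ c j → ∃ σ ∈ G, σ c = c ∧ σ i = j := by
  let s : Setoid (ι × ι) :=
    { r := fun a b => ∃ σ ∈ G, σ a.1 = b.1 ∧ σ a.2 = b.2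
      iseqv :=
        { refl := fun a => ⟨1, G.one_mem, rfl, rfl⟩
          symm := fun {a b} h => by
            obtain ⟨σ, hσ, h1, h2⟩ := h
            refine ⟨σ⁻¹, G.inv_mem hσ, ?_, ?_⟩
            · rw [← h1]; exact σ.symm_apply_apply _
            · rw [← h2]; exact σ.symm_apply_apply _
          trans := fun {a b c} h h' => by
            obtain ⟨σ, hσ, h1, h2⟩ := h
            obtain ⟨τ, hτ, h3, h4⟩ := h'
            refine ⟨τ * σ, G.mul_mem hτ hσ, ?_, ?_⟩
            · rw [Equiv.Perm.mul_apply, h1, h3]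
            · rw [Equiv.Perm.mul_apply, h2, h4] } }
  obtain ⟨f, hf⟩ := exists_injective_nat (Quotient s)
  refine ⟨fun c i => f (Quotient.mk s (c, i)), fun σ hσ c i => ?_, fun c i j h => ?_⟩
  · refine congrArg f (Quotient.sound (s.symm ?_))
    exact ⟨σ, hσ, rfl, rfl⟩
  · exact Quotient.exact (hf h)

end Pool.Agent.Lib.HyA
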