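import Pool.Agent.Lib.HyA.Kk

/-!
# HyA, row Tt: uniqueness over a binary class structure

PROOF IN WORDS. Suppose `w ≠ 0`. Take `x, x'` with `w x x' ≠ 0` and `cl x x'` maximal (`Finset.exists_max_image` over the pairs), `j =
lev x x'`, `C = {z | lev x z ≤ j}`. If `w a b ≠ 0` then `cl a b ≤ cl x x'`, so `lev a b ≤ j` (`lev_le`), so `a ∈ C ↔ b ∈ C`
(`lev_um`). Let `w' a b = w a b` if `a ∈ C` and `b ∈ C`, otherwise `0`. It is symmetric, zero on the diagonal, and of
degree zero (for `a ∈ C` all nonzero `w a b` have `b ∈ C`), so `opt_wt` gives `wt cl w' (cl x x') = 0`. But by `kk` the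
only nonzero terms of this sum are at `(x, x')` and `(x', x)` (if `w' a b ≠ 0` and `cl a b = cl x x'` then `S a b`,
`lev x a ≤ j`), so it is `2 w x x' ≠ 0`.
-/

set_option autoImplicit false

namespace Pool.Agent.Lib.HyA

open Finset Pool.Agent.Lib.HyE

variable {β : Type} [Fintype β] {cl : β → β → ℕ}

private theorem tt_sum (p q : β) (c : ℝ) [DecidableEq β] :
    ∑ i : β, ∑ j : β, (if i = p ∧ j = q then c else 0) = c := by
  rw [Finset.sum_eq_single p]
  · rw [Finset.sum_eq_single q]
    · rw [if_pos ⟨rfl, rfl⟩]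
    · intro b _ hb
      rw [if_neg fun h => hb h.2]
    · intro h
      exact absurd (mem_univ _) h
  · intro a _ ha
    refine Finset.sum_eq_zero fun b _ => ?_
    rw [if_neg fun h => ha h.1]
  · intro h
    exact absurd (mem_univ _) h

theorem bin_unq (h : Bin cl) : Unq cl := by
  classical
  intro S hS hO w hw hw0 hd hwS
  by_contra hcon
  push Not at hcon
  obtain ⟨i0, j0, h0⟩ := hcon
  obtain ⟨⟨x, x'⟩, hmem, hmax⟩ := Finset.exists_max_image
    (univ.filter fun p : β × β => w p.1 p.2 ≠ 0) (fun p => cl p.1 p.2)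
    ⟨(i0, j0), mem_filter.2 ⟨mem_univ _, h0⟩⟩
  have hxx : w x x' ≠ 0 := (mem_filter.1 hmem).2
  have hmax' : ∀ a b, w a b ≠ 0 → cl a b ≤ cl x x' := fun a b hab =>
    hmax (a, b) (mem_filter.2 ⟨mem_univ _, hab⟩)
  have hne : x ≠ x' := by
    rintro rfl
    exact hxx (hw0 x)
  have hlev : ∀ a b, w a b ≠ 0 → lev cl a b ≤ lev cl x x' := fun a b hab =>
    lev_le a b x x' (hmax' a b hab)
  -- the coset
  have hC : ∀ a b, w a b ≠ 0 → lev cl x a ≤ lev cl x x' → lev cl x b ≤ lev cl x x' := by
    intro a b hab ha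
    exact (lev_um h x a b).trans (max_le ha (hlev a b hab))
  set w' : β → β → ℝ := fun a b =>
    if lev cl x a ≤ lev cl x x' ∧ lev cl x b ≤ lev cl x x' then w a b else 0 with hw'
  have hw's : ∀ a b, w' a b = w' b a := by
    intro a b
    simp only [hw']
    by_cases hab : lev cl x a ≤ lev cl x x' ∧ lev cl x b ≤ lev cl x x'
    · rw [if_pos hab, if_pos ⟨hab.2, hab.1⟩, hw]
    · rw [if_neg hab, if_neg fun h1 => hab ⟨h1.2, h1.1⟩]
  have hw'0 : ∀ a, w' a a = 0 := by
    intro a
    simp only [hw']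
    split_ifs
    · exact hw0 a
    · rfl
  have hd' : ∀ a, deg w' a = 0 := by
    intro a
    by_cases ha : lev cl x a ≤ lev cl x x'
    · rw [← hd a]
      unfold deg
      refine Finset.sum_congr rfl fun b _ => ?_
      simp only [hw']
      by_cases hab : w a b = 0
      · rw [hab, ite_self]
      · rw [if_pos ⟨ha, hC a b hab ha⟩]
    · unfold deg
      refine Finset.sum_eq_zero fun b _ => ?_
      simp only [hw']
      rw [if_neg fun h1 => ha h1.1]
  have hw'S : ∀ a b, w' a b ≠ 0 → S a b := by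
    intro a b hab
    refine hwS a b fun h1 => hab ?_
    simp only [hw']
    rw [h1, ite_self]
  have hzero := opt_wt hO w' hw's hw'0 hd' hw'S (cl x x')
  have hterm : ∀ i j : β, (if i ≠ j ∧ cl i j = cl x x' then w' i j else 0) =
      (if i = x ∧ j = x' then w x x' else 0) + (if i = x' ∧ j = x then w x x' else 0) := by
    intro i j
    by_cases h1 : i = x ∧ j = x'
    · obtain ⟨rfl, rfl⟩ := h1
      have hself : lev cl i i ≤ lev cl i j := by
        rw [(lev_zero h i i).2 rfl]
        exact Nat.zero_le _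
      rw [if_pos ⟨hne, rfl⟩, if_pos ⟨rfl, rfl⟩, if_neg fun h2 => hne h2.1, add_zero]
      simp only [hw']
      rw [if_pos ⟨hself, le_rfl⟩]
    · by_cases h2 : i = x' ∧ j = x
      · obtain ⟨rfl, rfl⟩ := h2
        have hself : lev cl j j ≤ lev cl j i := by
          rw [(lev_zero h j j).2 rfl]
          exact Nat.zero_le _
        rw [if_pos ⟨hne.symm, h.sym i j⟩, if_neg h1, if_pos ⟨rfl, rfl⟩, zero_add]
        simp only [hw']
        rw [if_pos ⟨le_rfl, hself⟩, hw]
      · rw [if_neg h1, if_neg h2, add_zero]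
        by_cases h3 : i ≠ j ∧ cl i j = cl x x'
        · rw [if_pos h3]
          by_contra h4
          have h5 : lev cl x i ≤ lev cl x x' := by
            by_contra h6
            apply h4
            simp only [hw']
            rw [if_neg fun h7 => h6 h7.1]
          rcases kk h hS hO x x' i j hne h3.1 (hwS x x' hxx) (hw'S i j h4) h3.2.symm h5 with ⟨h6, h7⟩ | ⟨h6, h7⟩
          · exact h1 ⟨h6.symm, h7.symm⟩
          · exact h2 ⟨h7.symm, h6.symm⟩
        · rw [if_neg h3]
  have hval : wt cl w' (cl x x') = w x x' + w x x' := by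
    have h1 : wt cl w' (cl x x') = ∑ i : β, ∑ j : β, (if i ≠ j ∧ cl i j = cl x x' then w' i j else 0) := by
      unfold wt
      refine Finset.sum_congr rfl fun i _ => Finset.sum_congr rfl fun j _ => ?_
      by_cases h2 : i ≠ j ∧ cl i j = cl x x'
      · simp only [if_pos h2]
      · simp only [if_neg h2]
    rw [h1, Finset.sum_congr rfl fun i _ => Finset.sum_congr rfl fun j _ => hterm i j]
    simp only [Finset.sum_add_distrib]
    rw [tt_sum, tt_sum]
  rw [hval] at hzero
  exact hxx (by linarith)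

end Pool.Agent.Lib.HyA
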