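import Pool.Agent.Lib.HyE.Ind
import Pool.Agent.Lib.HyE.Rnk
import Pool.Agent.Lib.HyA.RB
import Pool.Agent.Lib.HyA.REx
import Pool.Agent.Lib.HyA.RIv
import Pool.Agent.Lib.HyA.Sx
import Pool.Agent.Lib.HyA.Oo
import Pool.Agent.Lib.HyA.Tt
import Pool.Agent.Lib.HyA.Tau
import Pool.Agent.Lib.HyA.Cln
import Pool.Agent.Lib.HyA.OTr
import Pool.Agent.Lib.HyA.Un
import Pool.Agent.Lib.HyA.Exs

/-!
# HyA: abelian groups
-/

set_option autoImplicit false

namespace Pool.Agent.Lib.HyA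

open Finset Pool.Agent.Lib Pool.Agent.Lib.HyE

section

variable {ι κ : Type} [Fintype ι] [Fintype κ] [DecidableEq κ] (D : Dat ι κ)
  {E : ι → κ → (ι → ι → Prop) → Prop}

theorem canE_mono (hE : Ext D E) (S S' : ι → ι → Prop) (hS : ∀ i j, S i j → S' i j)
    (h : CanE D E S') : CanE D E S := by
  obtain ⟨hI, h⟩ := h
  refine ⟨fun p => (D.hA p).mono _ _ (fun i j hij => hS _ _ hij) (hI p), ?_⟩
  rcases h with ⟨h1, h2⟩ | ⟨c, h1, h2, h3⟩
  · left
    refine ⟨fun i j k l hij hne hkl hk => h1 i j k l (hS _ _ hij) hne (hS _ _ hkl) hk, ?_⟩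
    refine D.hCb.mono _ _ ?_ h2
    rintro p q ⟨hpq, i, j, hij, hi, hj⟩
    exact ⟨hpq, i, j, hS _ _ hij, hi, hj⟩
  · right
    refine ⟨c, fun i j hij => h1 i j (hS _ _ hij), ?_, ?_⟩
    · intro p hp
      exact hE.mono c p S S' (fun i j _ _ hij => hS i j hij) (h2 p hp)
    · rintro p p' hp hp' hlt ⟨k, l, hk, hl, hkl⟩
      rcases h3 p p' hp hp' hlt ⟨k, l, hk, hl, hS _ _ hkl⟩ with hF | ⟨b, hb, hb1, hb2⟩
      · exact Or.inl fun b hb hcb => hF b hb (hS _ _ hcb)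
      · exact Or.inr ⟨b, hb, fun i j hi hj hij => hb1 i j hi hj (hS _ _ hij),
          fun i hi hci => hb2 i hi (hS _ _ hci)⟩

theorem canE_uniq (hE : Ext D E) (u v : ι → ι → ℝ) (hu : IsW u) (hv : IsW v)
    (hcu : CanE D E (supp u)) (hcv : CanE D E (supp v)) (hd : ∀ i, deg u i = deg v i)
    (i j : ι) : u i j = v i j := by
  obtain ⟨hiu, hcu⟩ := hcu
  obtain ⟨hiv, hcv⟩ := hcv
  rcases hcu with ⟨h1, h2⟩ | ⟨c, h1, h2, h3⟩
  · rcases hcv with ⟨h1', h2'⟩ | ⟨d, h1', h2', h3'⟩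
    · exact uniq_AA D hu hv hiu hiv h1 h2 h1' h2' hd i j
    · exact uniq_AB D hu hv hiu hiv h1 h1' hd i j
  · rcases hcv with ⟨h1', h2'⟩ | ⟨d, h1', h2', h3'⟩
    · exact (uniq_AB D hv hu hiv hiu h1' h1 (fun i => (hd i).symm) i j).symm
    · by_cases hcd : c = d
      · subst hcd
        exact uniq_BBE D hE hu hv hiu hiv h1 h1' h2 h2' h3 h3' hd i j
      · exact uniq_BD D hu hv hiu hiv hcd h1 h1' hd i j

theorem canE_exi (hE : Ext D E) (x : ι → ℝ) (hx : ∀ i, 0 ≤ x i)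
    (hx2 : ∀ i, 2 * x i ≤ ∑ j, x j) :
    ∃ u : ι → ι → ℝ, IsW u ∧ CanE D E (supp u) ∧ ∀ i, deg u i = x i := by
  have hr : ∀ p : κ, ∃ r : ι, D.π r = p ∧ ∀ i, D.π i = p → x i ≤ x r := by
    intro p
    obtain ⟨a, ha⟩ := D.sur p
    obtain ⟨r, hr, hmax⟩ := Finset.exists_max_image (univ.filter (fun i => D.π i = p)) x
      ⟨a, by simp [ha]⟩
    refine ⟨r, by simpa using hr, ?_⟩
    intro i hi
    exact hmax i (by simp [hi])
  choose rep hrep hm using hr
  have hmax : ∀ i, x i ≤ x (rep (D.π i)) := fun i => hm (D.π i) i rfl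
  by_cases hB : ∃ q, ∑ p, max 0 (2 * x (rep p) - cs D.π x p) <
      2 * max 0 (2 * x (rep q) - cs D.π x q)
  · obtain ⟨q, hq⟩ := hB
    obtain ⟨u, hu, hI, h1, h2, h3, hd⟩ := ex_BE D hE x hx hx2 rep hrep hmax q hq
    exact ⟨u, hu, ⟨hI, Or.inr ⟨rep q, h1, fun p hp => h2 p (by rw [hrep] at hp; exact hp), h3⟩⟩,
      hd⟩
  · push Not at hB
    obtain ⟨u, hu, hI, h1, h2, hd⟩ := ex_A D x hx rep hrep hmax hB
    exact ⟨u, hu, ⟨hI, Or.inl ⟨h1, h2⟩⟩, hd⟩

theorem canE_pt (hE : Ext D E) : PT (CanE D E) :=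
  ⟨canE_mono D hE, canE_uniq D hE, canE_exi D hE⟩

end

theorem opt_pt {β : Type} [Fintype β] {cl : β → β → ℕ} (h : Unq cl) : PT (Opt cl) :=
  ⟨fun _ _ hS hO => opt_mono hS hO, opt_uniq h, opt_exi cl⟩

/-- Abelian groups. -/
theorem ab_ex {ι : Type} [Fintype ι] (G : Subgroup (Equiv.Perm ι))
    (hab : ∀ σ ∈ G, ∀ τ ∈ G, σ * τ = τ * σ)
    (hs : ∀ x y, ∀ σ ∈ G, ∀ τ ∈ G, σ x = x → τ x = x → σ y = y ∨ τ y = y ∨ σ y = τ y) :
    Ex G := by
  classical
  let N : Subgroup (Equiv.Perm ι) := Subgroup.closure {σ | σ ∈ G ∧ ∃ x, σ x = x}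
  have hNG : N ≤ G := by
    rw [Subgroup.closure_le]
    exact fun σ hσ => hσ.1
  have hst : ∀ σ ∈ G, ∀ i, σ i = i → σ ∈ N := fun σ hσ i hi =>
    Subgroup.subset_closure ⟨hσ, i, hi⟩
  have hN2 : ∀ ν ∈ N, ν * ν = 1 := by
    intro ν hν
    have key : ∀ ν ∈ N, ν * ν = 1 := by
      intro ν hν
      refine Subgroup.closure_induction (p := fun ν _ => ν * ν = 1) ?_ ?_ ?_ ?_ hν
      · rintro σ ⟨hσ, x, hx⟩
        ext1 y
        rcases hs x y σ hσ (σ * σ) (G.mul_mem hσ hσ) hx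
          (by rw [Equiv.Perm.mul_apply, hx, hx]) with h | h | h
        · rw [Equiv.Perm.mul_apply, h, h]; rfl
        · rw [h]; rfl
        · rw [Equiv.Perm.mul_apply] at h ⊢
          have h' : y = σ y := σ.injective h
          rw [← h', ← h']; rfl
      · exact one_mul 1
      · intro a b ha hb ha2 hb2
        have hcm := hab a (hNG ha) b (hNG hb)
        calc a * b * (a * b) = a * (b * a) * b := by group
          _ = a * (a * b) * b := by rw [hcm]
          _ = (a * a) * (b * b) := by group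
          _ = 1 := by rw [ha2, hb2, one_mul]
      · intro a ha ha2
        rw [← mul_inv_rev, ha2, inv_one]
    exact key ν hν
  have hNn : ∀ σ ∈ G, ∀ ν ∈ N, σ * ν = ν * σ := fun σ hσ ν hν => hab σ hσ ν (hNG hν)
  let r : Setoid ι :=
    { r := fun a b => ∃ ν ∈ N, ν a = b
      iseqv :=
        { refl := fun a => ⟨1, N.one_mem, rfl⟩
          symm := by
            rintro a b ⟨σ, hσ, rfl⟩
            exact ⟨σ⁻¹, N.inv_mem hσ, by simp⟩
          trans := by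
            rintro a b c ⟨σ, hσ, rfl⟩ ⟨τ, hτ, rfl⟩
            exact ⟨τ * σ, N.mul_mem hτ hσ, rfl⟩ } }
  let π : ι → Quotient r := Quotient.mk r
  have hsur' : Function.Surjective π := Quotient.mk_surjective
  have hπ' : ∀ a b, π a = π b ↔ ∃ ν ∈ N, ν a = b := fun a b => Quotient.eq (r := r)
  have hinv : ∀ σ ∈ N, ∀ j, π (σ j) = π j := by
    intro σ hσ j
    rw [hπ']
    exact ⟨σ⁻¹, N.inv_mem hσ, by simp⟩
  have hgc : ∀ σ ∈ G, ∀ a b, π a = π b → π (σ a) = π (σ b) := by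
    intro σ hσ a b h
    rw [hπ'] at h ⊢
    obtain ⟨ν, hν, rfl⟩ := h
    refine ⟨ν, hν, ?_⟩
    rw [← Equiv.Perm.mul_apply, ← Equiv.Perm.mul_apply, hNn σ hσ ν hν]
  have hsur := hsur'
  choose s hsec using hsur
  let f : G →* Function.End (Quotient r) :=
    { toFun := fun σ => fun p => π ((σ : Equiv.Perm ι) (s p))
      map_one' := by
        funext p
        exact hsec p
      map_mul' := by
        intro σ τ
        funext p
        show π ((σ : Equiv.Perm ι) ((τ : Equiv.Perm ι) (s p))) =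
          π ((σ : Equiv.Perm ι) (s (π ((τ : Equiv.Perm ι) (s p)))))
        exact hgc σ σ.2 _ _ (hsec _).symm }
  let φ : G →* Equiv.Perm (Quotient r) := MonoidHom.toHomPerm f
  have hφ : ∀ (σ : G) i, π ((σ : Equiv.Perm ι) i) = φ σ (π i) := by
    intro σ i
    exact hgc σ σ.2 _ _ (hsec _).symm
  have hφN : ∀ σ : G, (σ : Equiv.Perm ι) ∈ N → φ σ = 1 := by
    intro σ hσ
    ext1 p
    obtain ⟨j, rfl⟩ := hsur' p
    rw [← hφ, hinv _ hσ]; rfl
  have hstab : ∀ σ ∈ G, ∀ i, π (σ i) = π i → σ ∈ N := by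
    intro σ hσ i hi
    rw [hπ'] at hi
    obtain ⟨ν, hν, hi⟩ := hi
    have h1 : ν * σ ∈ N := hst _ (G.mul_mem (hNG hν) hσ) i hi
    have h2 := N.mul_mem (N.inv_mem hν) h1
    simpa using h2
  have hsolv : Group.IsSolvable G := Group.isSolvable_of_comm (fun a b =>
    Subtype.ext (hab a a.2 b b.2))
  obtain ⟨Cb, hCb, hCbi⟩ := solv_ex _ (Quotient r) φ.range
    (Group.isSolvable_of_surjective φ.rangeRestrict_surjective) rfl (by
      rintro σ ⟨a, rfl⟩ p hp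
      obtain ⟨i, rfl⟩ := hsur' p
      rw [← hφ] at hp
      exact hφN a (hstab a a.2 i hp))
  obtain ⟨cl, hcli, hbin⟩ := cln G N hN2 hNn π hπ'
  obtain ⟨τ, hτi, hτo⟩ := tau_exists G
  obtain ⟨ρ, hρ, hρi⟩ := rank_exists π hsur' G (by
    intro σ hσ i hi j
    exact hinv σ (hst σ hσ i hi) j) hgc
  let A : ∀ p : Quotient r, ({i // π i = p} → {i // π i = p} → Prop) → Prop := fun p =>
    Opt (fun a b : {i // π i = p} => cl a b)
  let D : Dat ι (Quotient r) :=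
    { π := π
      sur := hsur'
      Cb := Cb
      hCb := hCb
      A := A
      hA := fun p => opt_pt (bin_unq (hbin p))
      ρ := ρ
      hρ := hρ
      r := fun _ i => (Fintype.equivFin ι i : ℕ)
      hr := fun c a b h => (Fintype.equivFin ι).injective (Fin.ext h) }
  let M : ℕ := 1 + ∑ c, ∑ i, τ c i
  have hM : ∀ c i, τ c i < M := by
    intro c i
    have h1 : τ c i ≤ ∑ i, τ c i :=
      Finset.single_le_sum (f := fun i => τ c i) (fun _ _ => Nat.zero_le _) (Finset.mem_univ i)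
    have h2 : ∑ i, τ c i ≤ ∑ c, ∑ i, τ c i :=
      Finset.single_le_sum (f := fun c => ∑ i, τ c i) (fun _ _ => Nat.zero_le _)
        (Finset.mem_univ c)
    omega
  have hExt : Ext D (fun c p S => Opt (ocl M (fun a : {i // D.π i = p} => τ c a)
      (fun a b : {i // D.π i = p} => cl a b)) (lft D.π c p S)) := by
    refine ext_opt D cl τ M (fun p S => Iff.rfl) ?_
    intro c p hp
    refine oo (hbin p) M _ (fun x => hM c x) ?_
    intro x y z hxy hyz
    obtain ⟨σ, hσ, hσc, hσy⟩ := hτo c y x hxy.symm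
    obtain ⟨μ, hμ, hμc, hμy⟩ := hτo c y z hyz
    rcases hs c y σ hσ μ hμ hσc hμc with h | h | h
    · left
      exact Subtype.ext (by rw [← hσy, h])
    · right; left
      exact Subtype.ext (by rw [← hμy, h])
    · right; right
      exact Subtype.ext (by rw [← hσy, ← hμy, h])
  refine ⟨CanE D _, canE_pt D hExt, ?_⟩
  intro σ hσ S hS
  have hπσ : ∀ i, D.π (σ i) = φ ⟨σ, hσ⟩ (D.π i) := fun i => hφ ⟨σ, hσ⟩ i
  have hiff : ∀ p a, D.π a = p ↔ D.π (σ a) = φ ⟨σ, hσ⟩ p := by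
    intro p a
    rw [hπσ]
    exact (φ ⟨σ, hσ⟩).injective.eq_iff.symm
  refine can_invE D _ σ (φ ⟨σ, hσ⟩) hπσ ?_ (fun S hS => hCbi _ ⟨_, rfl⟩ S hS) ?_ ?_ S hS
  · intro c p
    obtain ⟨j, rfl⟩ := hsur' p
    have h1 := hρi σ hσ c j
    rw [show π (σ j) = φ ⟨σ, hσ⟩ (π j) from hφ ⟨σ, hσ⟩ j] at h1
    exact h1
  · intro p S hS
    exact opt_trp (σ.subtypeEquiv (hiff p)) (fun a b : {i // D.π i = p} => cl a b)
      (fun a b : {i // D.π i = φ ⟨σ, hσ⟩ p} => cl a b)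
      (fun a b => hcli σ hσ a b) (fun a b => S a b) hS
  · intro c p S hS
    have h1 := opt_trp (Equiv.optionCongr (σ.subtypeEquiv (hiff p)))
      (ocl M (fun a : {i // D.π i = p} => τ c a) (fun a b : {i // D.π i = p} => cl a b))
      (ocl M (fun a : {i // D.π i = φ ⟨σ, hσ⟩ p} => τ (σ c) a)
        (fun a b : {i // D.π i = φ ⟨σ, hσ⟩ p} => cl a b)) (by
        rintro (_ | a) (_ | b)
        · rfl
        · exact hτi σ hσ c b
        · exact hτi σ hσ c a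
        · show M + cl (σ a) (σ b) = M + cl a b
          rw [hcli σ hσ]) _ hS
    have h2 : (fun i j => lft D.π c p S ((Equiv.optionCongr (σ.subtypeEquiv (hiff p))).symm i)
        ((Equiv.optionCongr (σ.subtypeEquiv (hiff p))).symm j)) =
        lft D.π (σ c) (φ ⟨σ, hσ⟩ p) (fun i j => S (σ.symm i) (σ.symm j)) := by
      funext i j
      rcases i with _ | a <;> rcases j with _ | b
      · rfl
      · show S c (σ.symm b) = S (σ.symm (σ c)) (σ.symm b)
        rw [Equiv.symm_apply_apply]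
      · show S (σ.symm a) c = S (σ.symm a) (σ.symm (σ c))
        rw [Equiv.symm_apply_apply]
      · rfl
    rw [h2] at h1
    exact h1

end Pool.Agent.Lib.HyA

namespace Pool.Agent.Lib.HyS

theorem abelian_exists {n : ℕ} (G : Subgroup (Equiv.Perm (Fin n)))
    (hab : ∀ σ ∈ G, ∀ τ ∈ G, σ * τ = τ * σ)
    (hs : ∀ x y, ∀ σ ∈ G, ∀ τ ∈ G, σ x = x → τ x = x → σ y = y ∨ τ y = y ∨ σ y = τ y) :
    ∃ T : LatticeTriangulation 2 n, Invariant G T := by
  obtain ⟨C, hC, hCi⟩ := HyA.ab_ex G hab hs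
  exact HyE.tot C hC G hCi

end Pool.Agent.Lib.HyS
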