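import Pool.Agent.Lib.HyA.Ab

/-!
# HyA: solvable groups whose point stabilisers generate an abelian group
-/

set_option autoImplicit false

namespace Pool.Agent.Lib.HyA

open Finset Pool.Agent.Lib Pool.Agent.Lib.HyE

/-- Equivariant ranks on the orbits of a normal elementary abelian 2-group. -/
theorem cln2 {ι κ : Type} [Fintype ι] (G N : Subgroup (Equiv.Perm ι)) (hN : ∀ ν ∈ N, ν * ν = 1)
    (π : ι → κ) (hsur : Function.Surjective π)
    (hπ : ∀ a b, π a = π b ↔ ∃ ν ∈ N, ν a = b)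
    (hcl : ∀ σ ∈ G, ∀ a b, π a = π b → π (σ a) = π (σ b))
    (hstab : ∀ σ ∈ G, ∀ i, π (σ i) = π i → σ ∈ N) :
    ∃ cl : ι → ι → ℕ, (∀ σ ∈ G, ∀ x y, π x = π y → cl (σ x) (σ y) = cl x y) ∧
      ∀ p, Bin (fun a b : {i // π i = p} => cl a b) := by
  classical
  have hcomm : ∀ σ ∈ N, ∀ ν ∈ N, σ * ν = ν * σ := by
    intro a ha b hb
    have h1 := hN _ (N.mul_mem ha hb)
    have h2 := hN a ha
    have h3 := hN b hb
    calc a * b = a * b * (a * b) * (a * b)⁻¹ := by group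
      _ = (a * b)⁻¹ := by rw [h1, one_mul]
      _ = b⁻¹ * a⁻¹ := by rw [mul_inv_rev]
      _ = b * a := by
        rw [inv_eq_of_mul_eq_one_left h2, inv_eq_of_mul_eq_one_left h3]
  obtain ⟨cl0, hinv0, hbin0⟩ := cln N N hN hcomm π hπ
  -- the orbits of G on the classes
  let r : Setoid κ :=
    { r := fun p q => ∃ σ ∈ G, ∃ i, π i = p ∧ π (σ i) = q
      iseqv :=
        { refl := fun p => by
            obtain ⟨i, hi⟩ := hsur p
            exact ⟨1, G.one_mem, i, hi, hi⟩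
          symm := by
            rintro p q ⟨σ, hσ, i, hi, hq⟩
            exact ⟨σ⁻¹, G.inv_mem hσ, σ i, hq, by simpa using hi⟩
          trans := by
            rintro p q s ⟨σ, hσ, i, hi, hq⟩ ⟨τ, hτ, j, hj, hs⟩
            refine ⟨τ * σ, G.mul_mem hτ hσ, i, hi, ?_⟩
            rw [Equiv.Perm.mul_apply, ← hs]
            exact hcl τ hτ _ _ (by rw [hq, hj]) } }
  let R : κ → κ := fun p => (Quotient.mk r p).out
  have hR : ∀ p, ∃ σ ∈ G, ∃ i, π i = R p ∧ π (σ i) = p := fun p => Quotient.mk_out (s := r) p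
  have hRR : ∀ p q, (∃ σ ∈ G, ∃ i, π i = p ∧ π (σ i) = q) → R p = R q := by
    intro p q h
    show (Quotient.mk r p).out = (Quotient.mk r q).out
    rw [Quotient.sound (s := r) h]
  choose g hgG gi hgi hgp using hR
  have hgm : ∀ p a, π a = p → π ((g p)⁻¹ a) = R p := by
    intro p a ha
    have h1 := hcl (g p)⁻¹ (G.inv_mem (hgG p)) a (g p (gi p)) (by rw [ha, hgp])
    rw [h1, ← hgi p]
    congr 1
    rw [← Equiv.Perm.mul_apply, inv_mul_cancel, Equiv.Perm.one_apply]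
  refine ⟨fun x y => cl0 ((g (π x))⁻¹ x) ((g (π x))⁻¹ y), ?_, ?_⟩
  · intro σ hσ x y hxy
    have hRe : R (π x) = R (π (σ x)) := hRR _ _ ⟨σ, hσ, x, rfl, rfl⟩
    have hκ : (g (π (σ x)))⁻¹ * σ * g (π x) ∈ N := by
      refine hstab _ (G.mul_mem (G.mul_mem (G.inv_mem (hgG _)) hσ) (hgG _)) ((g (π x))⁻¹ x) ?_
      have e1 : ((g (π (σ x)))⁻¹ * σ * g (π x)) ((g (π x))⁻¹ x) = (g (π (σ x)))⁻¹ (σ x) := by
        simp [Equiv.Perm.mul_apply]
      rw [e1, hgm _ _ rfl, hgm _ _ rfl, hRe]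
    have h1 := hinv0 _ hκ ((g (π x))⁻¹ x) ((g (π x))⁻¹ y)
    have e2 : ∀ z, ((g (π (σ x)))⁻¹ * σ * g (π x)) ((g (π x))⁻¹ z) =
        (g (π (σ x)))⁻¹ (σ z) := by
      intro z
      simp [Equiv.Perm.mul_apply]
    rw [e2, e2] at h1
    exact h1
  · intro p
    have hb := hbin0 (R p)
    have key : ∀ a b : {i // π i = p},
        cl0 ((g (π (a : ι)))⁻¹ a) ((g (π (a : ι)))⁻¹ b) =
          cl0 (⟨(g p)⁻¹ a, hgm p a a.2⟩ : {i // π i = R p})
            (⟨(g p)⁻¹ b, hgm p b b.2⟩ : {i // π i = R p}) := by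
      intro a b
      rw [a.2]
    refine ⟨?_, ?_, ?_, ?_⟩
    · intro x y
      simp only [key]
      exact hb.sym ⟨(g p)⁻¹ x, hgm p x x.2⟩ ⟨(g p)⁻¹ y, hgm p y y.2⟩
    · intro x y
      simp only [key]
      rw [hb.zero ⟨(g p)⁻¹ x, hgm p x x.2⟩ ⟨(g p)⁻¹ y, hgm p y y.2⟩]
      constructor
      · intro h
        exact Subtype.ext ((g p)⁻¹.injective (congrArg Subtype.val h))
      · intro h
        rw [h]
    · intro x y z h
      simp only [key] at h
      exact Subtype.ext ((g p)⁻¹.injective (congrArg Subtype.val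
        (hb.inj ⟨(g p)⁻¹ x, hgm p x x.2⟩ ⟨(g p)⁻¹ y, hgm p y y.2⟩ ⟨(g p)⁻¹ z, hgm p z z.2⟩ h)))
    · intro x y z
      simp only [key]
      exact hb.xor ⟨(g p)⁻¹ x, hgm p x x.2⟩ ⟨(g p)⁻¹ y, hgm p y y.2⟩ ⟨(g p)⁻¹ z, hgm p z z.2⟩

/-- Solvable groups whose point stabilisers generate an abelian group. -/
theorem sab_ex {ι : Type} [Fintype ι] (G : Subgroup (Equiv.Perm ι))
    (hsolv : Group.IsSolvable G)
    (hab : ∀ a ∈ Subgroup.closure {σ | σ ∈ G ∧ ∃ x, σ x = x},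
      ∀ b ∈ Subgroup.closure {σ | σ ∈ G ∧ ∃ x, σ x = x}, a * b = b * a)
    (hs : ∀ x y, ∀ σ ∈ G, ∀ τ ∈ G, σ x = x → τ x = x → σ y = y ∨ τ y = y ∨ σ y = τ y) :
    Ex G := by
  classical
  let N : Subgroup (Equiv.Perm ι) := Subgroup.closure {σ | σ ∈ G ∧ ∃ x, σ x = x}
  have hNG : N ≤ G := by
    rw [Subgroup.closure_le]
    exact fun σ hσ => hσ.1
  have hst : ∀ σ ∈ G, ∀ i, σ i = i → σ ∈ N := fun σ hσ i hi =>
    Subgroup.subset_closure ⟨hσ, i, hi⟩
  have hN2 : ∀ ν ∈ N, ν * ν = 1 := by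
    intro ν hν
    have key : ∀ ν ∈ N, ν * ν = 1 := by
      intro ν hν
      refine Subgroup.closure_induction (p := fun ν _ => ν * ν = 1) ?_ ?_ ?_ ?_ hν
      · rintro σ ⟨hσ, x, hx⟩
        ext1 y
        rcases hs x y σ hσ (σ * σ) (G.mul_mem hσ hσ) hx
          (by rw [Equiv.Perm.mul_apply, hx, hx]) with h | h | h
        · rw [Equiv.Perm.mul_apply, h, h]; rfl
        · rw [h]; rfl
        · rw [Equiv.Perm.mul_apply] at h ⊢
          have h' : y = σ y := σ.injective h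
          rw [← h', ← h']; rfl
      · exact one_mul 1
      · intro a b ha hb ha2 hb2
        have hcm := hab a ha b hb
        calc a * b * (a * b) = a * (b * a) * b := by group
          _ = a * (a * b) * b := by rw [hcm]
          _ = (a * a) * (b * b) := by group
          _ = 1 := by rw [ha2, hb2, one_mul]
      · intro a ha ha2
        rw [← mul_inv_rev, ha2, inv_one]
    exact key ν hν
  have hNn : ∀ σ ∈ G, ∀ ν ∈ N, σ * ν * σ⁻¹ ∈ N := by
    intro σ hσ ν hν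
    refine Subgroup.closure_induction (p := fun ν _ => σ * ν * σ⁻¹ ∈ N) ?_ ?_ ?_ ?_ hν
    · rintro τ ⟨hτ, x, hx⟩
      refine Subgroup.subset_closure ⟨G.mul_mem (G.mul_mem hσ hτ) (G.inv_mem hσ), σ x, ?_⟩
      simp [hx]
    · simp [Subgroup.one_mem]
    · intro a b _ _ ha hb
      have h := N.mul_mem ha hb
      have h2 : σ * a * σ⁻¹ * (σ * b * σ⁻¹) = σ * (a * b) * σ⁻¹ := by group
      rwa [h2] at h
    · intro a _ ha
      have h := N.inv_mem ha
      have h2 : (σ * a * σ⁻¹)⁻¹ = σ * a⁻¹ * σ⁻¹ := by group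
      rwa [h2] at h
  let r : Setoid ι :=
    { r := fun a b => ∃ ν ∈ N, ν a = b
      iseqv :=
        { refl := fun a => ⟨1, N.one_mem, rfl⟩
          symm := by
            rintro a b ⟨σ, hσ, rfl⟩
            exact ⟨σ⁻¹, N.inv_mem hσ, by simp⟩
          trans := by
            rintro a b c ⟨σ, hσ, rfl⟩ ⟨τ, hτ, rfl⟩
            exact ⟨τ * σ, N.mul_mem hτ hσ, rfl⟩ } }
  let π : ι → Quotient r := Quotient.mk r
  have hsur' : Function.Surjective π := Quotient.mk_surjective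
  have hπ' : ∀ a b, π a = π b ↔ ∃ ν ∈ N, ν a = b := fun a b => Quotient.eq (r := r)
  have hinv : ∀ σ ∈ N, ∀ j, π (σ j) = π j := by
    intro σ hσ j
    rw [hπ']
    exact ⟨σ⁻¹, N.inv_mem hσ, by simp⟩
  have hgc : ∀ σ ∈ G, ∀ a b, π a = π b → π (σ a) = π (σ b) := by
    intro σ hσ a b h
    rw [hπ'] at h ⊢
    obtain ⟨ν, hν, rfl⟩ := h
    exact ⟨σ * ν * σ⁻¹, hNn σ hσ ν hν, by simp⟩
  have hsur := hsur'
  choose s hsec using hsur
  let f : G →* Function.End (Quotient r) :=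
    { toFun := fun σ => fun p => π ((σ : Equiv.Perm ι) (s p))
      map_one' := by
        funext p
        exact hsec p
      map_mul' := by
        intro σ τ
        funext p
        show π ((σ : Equiv.Perm ι) ((τ : Equiv.Perm ι) (s p))) =
          π ((σ : Equiv.Perm ι) (s (π ((τ : Equiv.Perm ι) (s p)))))
        exact hgc σ σ.2 _ _ (hsec _).symm }
  let φ : G →* Equiv.Perm (Quotient r) := MonoidHom.toHomPerm f
  have hφ : ∀ (σ : G) i, π ((σ : Equiv.Perm ι) i) = φ σ (π i) := by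
    intro σ i
    exact hgc σ σ.2 _ _ (hsec _).symm
  have hφN : ∀ σ : G, (σ : Equiv.Perm ι) ∈ N → φ σ = 1 := by
    intro σ hσ
    ext1 p
    obtain ⟨j, rfl⟩ := hsur' p
    rw [← hφ, hinv _ hσ]; rfl
  have hstab : ∀ σ ∈ G, ∀ i, π (σ i) = π i → σ ∈ N := by
    intro σ hσ i hi
    rw [hπ'] at hi
    obtain ⟨ν, hν, hi⟩ := hi
    have h1 : ν * σ ∈ N := hst _ (G.mul_mem (hNG hν) hσ) i hi
    have h2 := N.mul_mem (N.inv_mem hν) h1
    simpa using h2
  obtain ⟨Cb, hCb, hCbi⟩ := solv_ex _ (Quotient r) φ.range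
    (Group.isSolvable_of_surjective φ.rangeRestrict_surjective) rfl (by
      rintro σ ⟨a, rfl⟩ p hp
      obtain ⟨i, rfl⟩ := hsur' p
      rw [← hφ] at hp
      exact hφN a (hstab a a.2 i hp))
  obtain ⟨cl, hcli, hbin⟩ := cln2 G N hN2 π hsur' hπ' hgc hstab
  obtain ⟨τ, hτi, hτo⟩ := tau_exists G
  obtain ⟨ρ, hρ, hρi⟩ := rank_exists π hsur' G (by
    intro σ hσ i hi j
    exact hinv σ (hst σ hσ i hi) j) hgc
  let A : ∀ p : Quotient r, ({i // π i = p} → {i // π i = p} → Prop) → Prop := fun p =>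
    Opt (fun a b : {i // π i = p} => cl a b)
  let D : Dat ι (Quotient r) :=
    { π := π
      sur := hsur'
      Cb := Cb
      hCb := hCb
      A := A
      hA := fun p => opt_pt (bin_unq (hbin p))
      ρ := ρ
      hρ := hρ
      r := fun _ i => (Fintype.equivFin ι i : ℕ)
      hr := fun c a b h => (Fintype.equivFin ι).injective (Fin.ext h) }
  let M : ℕ := 1 + ∑ c, ∑ i, τ c i
  have hM : ∀ c i, τ c i < M := by
    intro c i
    have h1 : τ c i ≤ ∑ i, τ c i :=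
      Finset.single_le_sum (f := fun i => τ c i) (fun _ _ => Nat.zero_le _) (Finset.mem_univ i)
    have h2 : ∑ i, τ c i ≤ ∑ c, ∑ i, τ c i :=
      Finset.single_le_sum (f := fun c => ∑ i, τ c i) (fun _ _ => Nat.zero_le _)
        (Finset.mem_univ c)
    omega
  have hExt : Ext D (fun c p S => Opt (ocl M (fun a : {i // D.π i = p} => τ c a)
      (fun a b : {i // D.π i = p} => cl a b)) (lft D.π c p S)) := by
    refine ext_opt D cl τ M (fun p S => Iff.rfl) ?_
    intro c p hp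
    refine oo (hbin p) M _ (fun x => hM c x) ?_
    intro x y z hxy hyz
    obtain ⟨σ, hσ, hσc, hσy⟩ := hτo c y x hxy.symm
    obtain ⟨μ, hμ, hμc, hμy⟩ := hτo c y z hyz
    rcases hs c y σ hσ μ hμ hσc hμc with h | h | h
    · left
      exact Subtype.ext (by rw [← hσy, h])
    · right; left
      exact Subtype.ext (by rw [← hμy, h])
    · right; right
      exact Subtype.ext (by rw [← hσy, ← hμy, h])
  refine ⟨CanE D _, canE_pt D hExt, ?_⟩
  intro σ hσ S hS
  have hπσ : ∀ i, D.π (σ i) = φ ⟨σ, hσ⟩ (D.π i) := fun i => hφ ⟨σ, hσ⟩ i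
  have hiff : ∀ p a, D.π a = p ↔ D.π (σ a) = φ ⟨σ, hσ⟩ p := by
    intro p a
    rw [hπσ]
    exact (φ ⟨σ, hσ⟩).injective.eq_iff.symm
  refine can_invE D _ σ (φ ⟨σ, hσ⟩) hπσ ?_ (fun S hS => hCbi _ ⟨_, rfl⟩ S hS) ?_ ?_ S hS
  · intro c p
    obtain ⟨j, rfl⟩ := hsur' p
    have h1 := hρi σ hσ c j
    rw [show π (σ j) = φ ⟨σ, hσ⟩ (π j) from hφ ⟨σ, hσ⟩ j] at h1
    exact h1
  · intro p S hS
    exact opt_trp (σ.subtypeEquiv (hiff p)) (fun a b : {i // D.π i = p} => cl a b)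
      (fun a b : {i // D.π i = φ ⟨σ, hσ⟩ p} => cl a b)
      (fun a b => hcli σ hσ a b (by rw [show π (a : ι) = p from a.2, show π (b : ι) = p from b.2]))
      (fun a b => S a b) hS
  · intro c p S hS
    have h1 := opt_trp (Equiv.optionCongr (σ.subtypeEquiv (hiff p)))
      (ocl M (fun a : {i // D.π i = p} => τ c a) (fun a b : {i // D.π i = p} => cl a b))
      (ocl M (fun a : {i // D.π i = φ ⟨σ, hσ⟩ p} => τ (σ c) a)
        (fun a b : {i // D.π i = φ ⟨σ, hσ⟩ p} => cl a b)) (by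
        rintro (_ | a) (_ | b)
        · rfl
        · exact hτi σ hσ c b
        · exact hτi σ hσ c a
        · show M + cl (σ a) (σ b) = M + cl a b
          rw [hcli σ hσ a b
            (by rw [show π (a : ι) = p from a.2, show π (b : ι) = p from b.2])]) _ hS
    have h2 : (fun i j => lft D.π c p S ((Equiv.optionCongr (σ.subtypeEquiv (hiff p))).symm i)
        ((Equiv.optionCongr (σ.subtypeEquiv (hiff p))).symm j)) =
        lft D.π (σ c) (φ ⟨σ, hσ⟩ p) (fun i j => S (σ.symm i) (σ.symm j)) := by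
      funext i j
      rcases i with _ | a <;> rcases j with _ | b
      · rfl
      · show S c (σ.symm b) = S (σ.symm (σ c)) (σ.symm b)
        rw [Equiv.symm_apply_apply]
      · show S (σ.symm a) c = S (σ.symm a) (σ.symm (σ c))
        rw [Equiv.symm_apply_apply]
      · rfl
    rw [h2] at h1
    exact h1

end Pool.Agent.Lib.HyA

namespace Pool.Agent.Lib.HyS

/-- Solvable groups whose point stabilisers generate an abelian group. -/
theorem stab_abelian_exists {n : ℕ} (G : Subgroup (Equiv.Perm (Fin n)))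
    (hsol : Group.IsSolvable G)
    (hab : ∀ a ∈ Subgroup.closure {σ | σ ∈ G ∧ ∃ x, σ x = x},
      ∀ b ∈ Subgroup.closure {σ | σ ∈ G ∧ ∃ x, σ x = x}, a * b = b * a)
    (hs : ∀ x y, ∀ σ ∈ G, ∀ τ ∈ G, σ x = x → τ x = x → σ y = y ∨ τ y = y ∨ σ y = τ y) :
    ∃ T : LatticeTriangulation 2 n, Invariant G T := by
  obtain ⟨C, hC, hCi⟩ := HyA.sab_ex G hsol hab hs
  exact HyE.tot C hC G hCi

end Pool.Agent.Lib.HyS
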