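import Pool.Agent.Lib.HyE.Defs

/-!
# MP_079fc8_co, abelian groups: lexicographically optimal triangulations. Definitions
-/

set_option autoImplicit false

namespace Pool.Agent.Lib.HyA

open Finset Pool.Agent.Lib.HyE

section

variable {ι : Type} [Fintype ι]

open Classical in
/-- The total weight of the pairs of rank `k` (both orders of a pair are counted). -/
noncomputable def wt (cl : ι → ι → ℕ) (u : ι → ι → ℝ) (k : ℕ) : ℝ :=
  ∑ i, ∑ j, if i ≠ j ∧ cl i j = k then u i j else 0

/-- Lexicographically positive. -/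
def LexPos (f : ℕ → ℝ) : Prop := ∃ k, 0 < f k ∧ ∀ l < k, f l = 0

/-- `S` is optimal: no change of degree zero which only takes weight away from pairs of `S` is
lexicographically positive (small ranks are preferred). -/
def Opt (cl : ι → ι → ℕ) (S : ι → ι → Prop) : Prop :=
  ∀ d : ι → ι → ℝ, (∀ i j, d i j = d j i) → (∀ i, d i i = 0) → (∀ i, deg d i = 0) →
    (∀ i j, d i j < 0 → S i j) → ¬ LexPos (wt cl d)

/-- No nonzero weights of degree zero on an optimal symmetric set. -/
def Unq (cl : ι → ι → ℕ) : Prop :=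
  ∀ S : ι → ι → Prop, (∀ i j, S i j → S j i) → Opt cl S → ∀ w : ι → ι → ℝ,
    (∀ i j, w i j = w j i) → (∀ i, w i i = 0) → (∀ i, deg w i = 0) →
    (∀ i j, w i j ≠ 0 → S i j) → ∀ i j, w i j = 0

end

/-- The ranks of the differences in an elementary abelian 2-group. -/
structure Bin {β : Type} (cl : β → β → ℕ) : Prop where
  sym : ∀ x y, cl x y = cl y x
  zero : ∀ x y, cl x y = 0 ↔ x = y
  inj : ∀ x y z, cl x y = cl x z → y = z
  xor : ∀ x y z, cl x z ≤ cl x y ^^^ cl y z

/-- the level of a pair -/
def lev {β : Type} (cl : β → β → ℕ) (x y : β) : ℕ := Nat.size (cl x y)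

/-- the vertices can be coloured with two colours such that the pairs of `F` have two colours -/
def Col {β : Type} (F : β → β → Prop) : Prop :=
  ∃ col : β → Bool, ∀ x y, F x y → col x ≠ col y

/-- The ranks on `Option β`: the pairs which contain `none` (the centre) come first, ordered by
`τ`; then the pairs of `β`. -/
def ocl {β : Type} (M : ℕ) (τ : β → ℕ) (cl : β → β → ℕ) : Option β → Option β → ℕ
  | none, none => 0
  | none, some x => τ x
  | some x, none => τ x
  | some x, some y => M + cl x y

section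

variable {ι κ : Type} [Fintype ι] [Fintype κ] [DecidableEq κ]

/-- A family of extensions of the triangulations of the classes to one more point `c`. -/
structure Ext (D : Dat ι κ) (E : ι → κ → (ι → ι → Prop) → Prop) : Prop where
  mono : ∀ c p (S S' : ι → ι → Prop),
    (∀ i j, (D.π i = p ∨ i = c) → (D.π j = p ∨ j = c) → S i j → S' i j) → E c p S' → E c p S
  uniq : ∀ c p, p ≠ D.π c → ∀ u v : ι → ι → ℝ, IsW u → IsW v →
    E c p (supp u) → E c p (supp v) →
    (∀ i, D.π i = p → inn D.π u i + u c i = inn D.π v i + v c i) →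
    (∑ i ∈ univ.filter (fun i => D.π i = p), u c i =
      ∑ i ∈ univ.filter (fun i => D.π i = p), v c i) →
    ∀ i, D.π i = p → u c i = v c i
  exi : ∀ c p, p ≠ D.π c → ∀ x : ι → ℝ, (∀ i, 0 ≤ x i) → ∀ O : ℝ, 0 ≤ O → O ≤ cs D.π x p →
    (∀ i, D.π i = p → 2 * x i - cs D.π x p ≤ O) →
    ∃ u : ι → ι → ℝ, IsW u ∧ E c p (supp u) ∧ D.A p (res D p (supp u)) ∧
      (∀ i, D.π i = p → inn D.π u i + u c i = x i) ∧
      ∑ i ∈ univ.filter (fun i => D.π i = p), u c i = O

/-- The simplices of the composition with extensions `E`. -/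
def CanE (D : Dat ι κ) (E : ι → κ → (ι → ι → Prop) → Prop) (S : ι → ι → Prop) : Prop :=
  Inn D S ∧ ((A1 D S ∧ A2 D S) ∨
    ∃ c, B1 D c S ∧ (∀ p, p ≠ D.π c → E c p S) ∧ B3 D c S)

/-- the pairs of `S` in the class `p` together with `c`, over `Option` of the class -/
def lft (π : ι → κ) (c : ι) (p : κ) (S : ι → ι → Prop) :
    Option {i // π i = p} → Option {i // π i = p} → Prop
  | none, none => False
  | none, some x => S c x
  | some x, none => S x c
  | some x, some y => S x y

end

end Pool.Agent.Lib.HyA
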