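import Pool.Agent.Lib.HyA.Bn
import Pool.Agent.Lib.HyA.Ex4

/-!
# HyA, row Kk: two optimal pairs of one rank in one coset are equal

PROOF IN WORDS. Let `j = lev x x' = lev z z'` (equal ranks). If `x = z` then `x' = z'` by `inj`; if `x = z'` then `cl x x' = cl z' z`
gives `x' = z`. If `x' = z'` then `x = z`, if `x' = z` then `x = z'` (`inj` with `sym`). So let all four be different
(`x ≠ x'`, `z ≠ z'`). If `lev x z < j`: `lev x' z' < j`: otherwise (`≤ j` by `lev_um`) it is `j`, and
`lev x' z = j` (`≤ j`, and `< j` would give `lev x x' < j`), so `lev_two` for `z', z, x'` (`lev z' z = j =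
lev z' x' = lev z x'`) gives `z' = z`. `ex4` with `a = x, b = x', c = z, d = z'`:
`cl x z < cl x x'`, `cl z z'` by `lev_lt`. If `lev x z = j`: then `lev x' z < j` (otherwise `lev_two` for `x, x', z`), and
`ex4` with `a = x', b = x, c = z, d = z'`.
-/

set_option autoImplicit false

namespace Pool.Agent.Lib.HyA

open Finset Pool.Agent.Lib.HyE

variable {β : Type} [Fintype β] {cl : β → β → ℕ}

theorem kk (h : Bin cl) {S : β → β → Prop} (hS : ∀ i j, S i j → S j i) (hO : Opt cl S)
    (x x' z z' : β) (hx : x ≠ x') (hz : z ≠ z') (h1 : S x x') (h2 : S z z')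
    (h3 : cl x x' = cl z z') (h4 : lev cl x z ≤ lev cl x x') :
    (x = z ∧ x' = z') ∨ (x = z' ∧ x' = z) := by
  by_cases e1 : x = z
  · subst e1
    exact Or.inl ⟨rfl, h.inj x x' z' h3⟩
  by_cases e2 : x = z'
  · subst e2
    exact Or.inr ⟨rfl, h.inj x x' z (by rw [h3, h.sym z x])⟩
  by_cases e3 : x' = z'
  · subst e3
    exact absurd (h.inj x' x z (by rw [h.sym x' x, h3, h.sym z x'])) e1
  by_cases e4 : x' = z
  · subst e4
    exact absurd (h.inj x' x z' (by rw [h.sym x' x, h3])) e2
  exfalso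
  have hj : lev cl x x' = lev cl z z' := by
    unfold lev
    rw [h3]
  rcases h4.lt_or_eq with h5 | h5
  · exact ex4 h.sym hS hO x x' z z' hx e1 e2 e4 e3 hz h1 h2 (lev_lt x z x x' h5)
      (lev_lt x z z z' (hj ▸ h5))
  · have h6 : lev cl x' z ≤ lev cl x x' := by
      have h7 := lev_um h x' x z
      rw [lev_sym h x' x, h5, max_self] at h7
      exact h7
    rcases h6.lt_or_eq with h8 | h8
    · exact ex4 h.sym hS hO x' x z z' (Ne.symm hx) e4 e3 e1 e2 hz (hS _ _ h1) h2
        (lev_lt x' z x' x (by rw [lev_sym h x' x]; exact h8)) (lev_lt x' z z z' (hj ▸ h8))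
    · exact hx (lev_two h x x' z h5.symm h8)

end Pool.Agent.Lib.HyA
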