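import Pool.Agent.Lib.HyA.Defs

/-!
# HyA, row Lx: basic facts on optimal sets

PROOF IN WORDS. `wt_add`, `wt_smul`: linearity of finite sums. `lex_tri`: `wt cl d` is zero for `k` larger than all ranks
(finite type), so if it is not identically zero take the least `k` with `wt cl d k ≠ 0`. `opt_wt`: apply `Opt`
to `w` and `-w` (both take weight only from pairs of `S`) and `lex_tri`. `opt_no`: by `Opt` it is enough to
show `LexPos (wt cl d)`: for `l ≤ k0` all terms of `wt cl d l` are nonnegative, and for `k = cl i j` of the given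
pair the sum is positive; take the least `k ≤ k0` with `wt cl d k > 0`.
-/

set_option autoImplicit false

namespace Pool.Agent.Lib.HyA

open Finset Pool.Agent.Lib.HyE

variable {ι : Type} [Fintype ι]

theorem wt_sub (cl : ι → ι → ℕ) (u v : ι → ι → ℝ) (k : ℕ) :
    wt cl (fun i j => u i j - v i j) k = wt cl u k - wt cl v k := by
  unfold wt
  rw [← Finset.sum_sub_distrib]
  refine Finset.sum_congr rfl fun i _ => ?_
  rw [← Finset.sum_sub_distrib]
  refine Finset.sum_congr rfl fun j _ => ?_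
  split_ifs
  · rfl
  · rw [sub_zero]

theorem wt_smul (cl : ι → ι → ℕ) (a : ℝ) (u : ι → ι → ℝ) (k : ℕ) :
    wt cl (fun i j => a * u i j) k = a * wt cl u k := by
  unfold wt
  rw [Finset.mul_sum]
  refine Finset.sum_congr rfl fun i _ => ?_
  rw [Finset.mul_sum]
  refine Finset.sum_congr rfl fun j _ => ?_
  split_ifs
  · rfl
  · rw [mul_zero]

private theorem lx_neg (cl : ι → ι → ℕ) (u : ι → ι → ℝ) (k : ℕ) :
    wt cl (fun i j => - u i j) k = - wt cl u k := by
  have h := wt_smul cl (-1) u k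
  simpa only [neg_one_mul] using h

theorem lex_tri (cl : ι → ι → ℕ) (d : ι → ι → ℝ) :
    LexPos (wt cl d) ∨ LexPos (wt cl (fun i j => - d i j)) ∨ ∀ k, wt cl d k = 0 := by
  classical
  by_cases h : ∃ k, wt cl d k ≠ 0
  · have h1 := Nat.find_spec h
    have h2 : ∀ l < Nat.find h, wt cl d l = 0 := fun l hl => not_not.1 (Nat.find_min h hl)
    rcases lt_or_gt_of_ne h1 with h3 | h3
    · right
      left
      refine ⟨Nat.find h, ?_, fun l hl => ?_⟩
      · rw [lx_neg]
        linarith
      · rw [lx_neg, h2 l hl, neg_zero]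
    · left
      exact ⟨Nat.find h, h3, h2⟩
  · right
    right
    intro k
    by_contra hk
    exact h ⟨k, hk⟩

theorem opt_mono {cl : ι → ι → ℕ} {S S' : ι → ι → Prop} (h : ∀ i j, S i j → S' i j)
    (hO : Opt cl S') : Opt cl S := by
  intro d h1 h2 h3 h4
  exact hO d h1 h2 h3 fun i j h5 => h i j (h4 i j h5)

theorem opt_wt {cl : ι → ι → ℕ} {S : ι → ι → Prop} (hO : Opt cl S) (w : ι → ι → ℝ)
    (hw : ∀ i j, w i j = w j i) (hw0 : ∀ i, w i i = 0) (hd : ∀ i, deg w i = 0)
    (hS : ∀ i j, w i j ≠ 0 → S i j) (k : ℕ) : wt cl w k = 0 := by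
  rcases lex_tri cl w with h | h | h
  · exact absurd h (hO w hw hw0 hd fun i j h5 => hS i j h5.ne)
  · refine absurd h (hO (fun i j => - w i j) (fun i j => ?_) (fun i => ?_) (fun i => ?_) fun i j h5 => ?_)
    · show - w i j = - w j i
      rw [hw i j]
    · show - w i i = 0
      rw [hw0 i, neg_zero]
    · have h6 := hd i
      unfold deg at h6 ⊢
      rw [Finset.sum_neg_distrib, h6, neg_zero]
    · refine hS i j fun h6 => ?_
      have h7 : - w i j < 0 := h5
      rw [h6, neg_zero] at h7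
      exact lt_irrefl _ h7
  · exact h k

/-- an improvement: all changes of rank at most `k0` are nonnegative, one is positive -/
theorem opt_no {cl : ι → ι → ℕ} {S : ι → ι → Prop} (hO : Opt cl S) (d : ι → ι → ℝ)
    (h1 : ∀ i j, d i j = d j i) (h2 : ∀ i, d i i = 0) (h3 : ∀ i, deg d i = 0)
    (h4 : ∀ i j, d i j < 0 → S i j) (k0 : ℕ) (h5 : ∀ i j, i ≠ j → cl i j ≤ k0 → 0 ≤ d i j)
    (h6 : ∃ i j, i ≠ j ∧ cl i j ≤ k0 ∧ 0 < d i j) : False := by
  classical
  refine hO d h1 h2 h3 h4 ?_
  have nt : ∀ k ≤ k0, ∀ i j, 0 ≤ (if i ≠ j ∧ cl i j = k then d i j else 0) := by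
    intro k hk i j
    split_ifs with h
    · exact h5 i j h.1 (h.2.le.trans hk)
    · exact le_rfl
  have nn : ∀ k ≤ k0, 0 ≤ wt cl d k := by
    intro k hk
    unfold wt
    exact Finset.sum_nonneg fun i _ => Finset.sum_nonneg fun j _ => by
      have := nt k hk i j
      convert this
  obtain ⟨i, j, hij, hk, hp⟩ := h6
  have pos : 0 < wt cl d (cl i j) := by
    unfold wt
    refine Finset.sum_pos' (fun i' _ => Finset.sum_nonneg fun j' _ => ?_)
      ⟨i, Finset.mem_univ _, Finset.sum_pos' (fun j' _ => ?_) ⟨j, Finset.mem_univ _, ?_⟩⟩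
    · have := nt _ hk i' j'
      convert this
    · have := nt _ hk i j'
      convert this
    · rw [if_pos ⟨hij, rfl⟩]
      exact hp
  have ex : ∃ k, k ≤ k0 ∧ 0 < wt cl d k := ⟨cl i j, hk, pos⟩
  refine ⟨Nat.find ex, (Nat.find_spec ex).2, fun l hl => ?_⟩
  have hlk : l ≤ k0 := hl.le.trans (Nat.find_spec ex).1
  have h7 := Nat.find_min ex hl
  have h8 : wt cl d l ≤ 0 := by
    by_contra h9
    exact h7 ⟨hlk, not_le.1 h9⟩
  exact le_antisymm h8 (nn l hlk)

end Pool.Agent.Lib.HyA
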