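import Pool.Agent.Lib.HyA.Defs

/-!
# HyA, row Xor: elementary abelian 2-groups embed into the natural numbers with xor

PROOF IN WORDS. Induction: for a subgroup `K` of `N` (order `2 ^ k`) let `f : K → ℕ` be injective with values `< 2 ^ k` and
`f (x * y) = f x ^^^ f y`; start with the trivial subgroup. If `K ≠ N` take `a ∉ K`; `N` is commutative (`x * x = 1` for
all `x`), `K ∪ a K` is a subgroup, and `f (a x) = 2 ^ k + f x = 2 ^ k ^^^ f x`. Or: `Additive N` is a module over
`ZMod 2` (`AddCommGroup.zmodModule`), finite dimensional, with a basis `b 0, ..., b (r - 1)`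
(`Module.finBasis`), and `f x = ∑ i, if coordinate i of x is 1 then 2 ^ i else 0`, with
`Nat.testBit (f x) i = decide (coordinate i = 1)` (`Nat.eq_of_testBit_eq`, or `BitVec` / `Nat.ofBits`).
-/

set_option autoImplicit false

namespace Pool.Agent.Lib.HyA

open Finset Pool.Agent.Lib.HyE

private lemma cubeEmb (r : ℕ) : ∃ g : (Fin r → ZMod 2) → ℕ, Function.Injective g ∧ ∀ v w, g (v + w) = g v ^^^ g w := by
  induction r with
  | zero =>
    refine ⟨fun _ => 0, fun v w _ => Subsingleton.elim _ _, fun v w => by simp⟩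
  | succ r ih =>
    obtain ⟨g, hg, hgx⟩ := ih
    have key : ∀ a b : ZMod 2, decide (a + b = 1) = Bool.xor (decide (a = 1)) (decide (b = 1)) := by decide
    have key2 : ∀ a b : ZMod 2, decide (a = 1) = decide (b = 1) → a = b := by decide
    refine ⟨fun v => Nat.bit (decide (v 0 = 1)) (g (Fin.tail v)), ?_, ?_⟩
    · intro v w h
      have h' : Nat.bit (decide (v 0 = 1)) (g (Fin.tail v)) = Nat.bit (decide (w 0 = 1)) (g (Fin.tail w)) := h
      have h1 := congrArg (fun n => Nat.testBit n 0) h'
      have h2 := congrArg (fun n => n / 2) h'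
      simp only [Nat.testBit_bit_zero] at h1
      simp only [Nat.bit_div_two] at h2
      have h3 := hg h2
      have h0 := key2 _ _ h1
      funext i
      refine Fin.cases h0 (fun j => ?_) i
      exact congrFun h3 j
    · intro v w
      have ht : Fin.tail (v + w) = Fin.tail v + Fin.tail w := by
        funext j; rfl
      show Nat.bit (decide (v 0 + w 0 = 1)) (g (Fin.tail (v + w))) = _
      rw [ht, hgx, key, Nat.xor_bit]

private lemma xorCore (V : Type) [AddCommGroup V] [Finite V] (hV : ∀ x : V, 2 • x = 0) :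
    ∃ f : V → ℕ, Function.Injective f ∧ ∀ x y, f (x + y) = f x ^^^ f y := by
  let _ : Module (ZMod 2) V := AddCommGroup.zmodModule hV
  have : Module.Finite (ZMod 2) V := Module.Finite.of_finite
  let e := (Module.finBasis (ZMod 2) V).equivFun
  obtain ⟨g, hg, hgx⟩ := cubeEmb (Module.finrank (ZMod 2) V)
  refine ⟨fun x => g (e x), fun x y h => e.injective (hg h), fun x y => ?_⟩
  show g (e (x + y)) = _
  rw [map_add, hgx]

theorem xor_emb (N : Type) [Group N] [Finite N] (hN : ∀ x : N, x * x = 1) :
    ∃ f : N → ℕ, Function.Injective f ∧ ∀ x y, f (x * y) = f x ^^^ f y := by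
  have hinv : ∀ x : N, x⁻¹ = x := fun x => inv_eq_of_mul_eq_one_left (hN x)
  have hcomm : ∀ a b : N, a * b = b * a := by
    intro a b
    have h := hinv (a * b)
    rw [mul_inv_rev, hinv, hinv] at h
    exact h.symm
  let _ : CommGroup N := { (inferInstance : Group N) with mul_comm := hcomm }
  obtain ⟨f, hf, hfx⟩ := xorCore (Additive N) (fun x => by
    rw [two_nsmul]
    exact hN (Additive.toMul x))
  exact ⟨fun x => f (Additive.ofMul x), fun x y h => Additive.ofMul.injective (hf h),
    fun x y => hfx (Additive.ofMul x) (Additive.ofMul y)⟩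

end Pool.Agent.Lib.HyA
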